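import Pool.Agent.MP_6bff71_co.OC.Osc

/-!
One two-colouring of `ℕ` with `δ n ^ 2 + O(n)` monochromatic three-term progressions, `δ < 1/16`:
the initial sums follow the oscillating profile, and the alternating initial sums flatten the
oscillation of the count.
-/

open Finset Real

namespace Pool.Agent.MP_6bff71_co.OC

lemma ps_lip (f : ℕ → ℝ) (L : ℝ) (hf : ∀ x, |f (x + 1)| ≤ L) (a m : ℕ) :
    |ps f (a + m) - ps f a| ≤ L * m := by
  rw [← sum_up]
  refine (Finset.abs_sum_le_sum_abs _ _).trans ?_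
  refine (Finset.sum_le_sum (g := fun _ => L) fun d _ => hf (a + d)).trans ?_
  rw [sum_const, card_range, nsmul_eq_mul, mul_comm]

lemma ps_lip' (f : ℕ → ℝ) (L : ℝ) (hf : ∀ x, |f (x + 1)| ≤ L) (a b m : ℕ) (h1 : a ≤ b)
    (h2 : b ≤ a + m) : |ps f b - ps f a| ≤ L * m := by
  obtain ⟨c, rfl⟩ := Nat.exists_eq_add_of_le h1
  refine (ps_lip f L hf a c).trans (mul_le_mul_of_nonneg_left ?_ ((abs_nonneg _).trans (hf 0)))
  exact_mod_cast (by omega)

lemma edge_succ (f : ℕ → ℝ) (hf : ∀ x, |f (x + 1)| ≤ 2) (n : ℕ) :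
    |edge f (n + 1) - edge f n| ≤ 8 * ((n : ℝ) + 1) := by
  have e : edge f (n + 1) - edge f n
      = ∑ x ∈ range n, f (x + 1) * (ps f ((n + 1 + x + 1) / 2) - ps f ((n + x + 1) / 2))
        + f (n + 1) * (ps f ((n + 1 + n + 1) / 2) - ps f ((n + 1) / 2)) := by
    rw [edge, edge, sum_range_succ, add_sub_right_comm, ← Finset.sum_sub_distrib]
    refine congrArg (· + _) (Finset.sum_congr rfl fun x _ => by ring)
  have b1 : |∑ x ∈ range n, f (x + 1) * (ps f ((n + 1 + x + 1) / 2) - ps f ((n + x + 1) / 2))|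
      ≤ n * 4 := by
    refine (Finset.abs_sum_le_sum_abs _ _).trans ?_
    refine (Finset.sum_le_sum (g := fun _ => (4 : ℝ)) fun x _ => ?_).trans
      (by rw [sum_const, card_range, nsmul_eq_mul])
    have := mul_le_mul (hf x) (ps_lip' f 2 hf ((n + x + 1) / 2) ((n + 1 + x + 1) / 2) 1
      (by omega) (by omega)) (abs_nonneg _) (by norm_num)
    rw [abs_mul]
    norm_num at this
    exact this
  have b2 := mul_le_mul (hf n) (ps_lip' f 2 hf ((n + 1) / 2) ((n + 1 + n + 1) / 2) (n + 1)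
    (by omega) (by omega)) (abs_nonneg _) (by norm_num)
  rw [← abs_mul] at b2
  push_cast at b2
  rw [e]
  refine (abs_add_le _ _).trans ?_
  linarith

lemma edge_compare (f u : ℕ → ℝ) (hf : ∀ x, |f (x + 1)| ≤ 1) (hu : ∀ x, |u (x + 1)| ≤ 1)
    (hd : ∀ t, |ps f t - ps u t| ≤ 4) (n : ℕ) : |edge f n - edge u n| ≤ 20 * (n : ℝ) := by
  obtain ⟨G, hG⟩ : ∃ G : ℕ → ℝ, G = fun x => ps u ((n + x + 1) / 2) - ps u ((x + 1) / 2) :=
    ⟨_, rfl⟩
  have hpart : ∀ t, |∑ x ∈ range t, (f (x + 1) - u (x + 1))| ≤ 4 := fun t => by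
    rw [Finset.sum_sub_distrib]
    exact hd t
  have hab := abel_bound (fun x => f (x + 1) - u (x + 1)) G 4 2 hpart (fun x => by
    have a1 := ps_lip' u 1 hu ((n + x + 1) / 2) ((n + (x + 1) + 1) / 2) 1 (by omega) (by omega)
    have a2 := ps_lip' u 1 hu ((x + 1) / 2) ((x + 1 + 1) / 2) 1 (by omega) (by omega)
    rw [hG]
    simp only [Nat.cast_one, mul_one] at a1 a2 ⊢
    rw [abs_le]
    constructor <;>
      linarith [(abs_le.1 a1).1, (abs_le.1 a1).2, (abs_le.1 a2).1, (abs_le.1 a2).2]) n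
  have hGn : |G n| ≤ 1 * (n : ℝ) := by
    rw [hG]
    exact ps_lip' u 1 hu _ _ n (by omega) (by omega)
  have b1 := mul_le_mul hGn (hpart n) (abs_nonneg _) (by positivity)
  rw [← abs_mul] at b1
  have b2 : |∑ x ∈ range n, f (x + 1) * ((ps f ((n + x + 1) / 2) - ps u ((n + x + 1) / 2))
      - (ps f ((x + 1) / 2) - ps u ((x + 1) / 2)))| ≤ n * 8 := by
    refine (Finset.abs_sum_le_sum_abs _ _).trans ?_
    refine (Finset.sum_le_sum (g := fun _ => (8 : ℝ)) fun x _ => ?_).trans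
      (by rw [sum_const, card_range, nsmul_eq_mul])
    rw [abs_mul]
    refine (mul_le_of_le_one_left (abs_nonneg _) (hf x)).trans ((abs_sub _ _).trans ?_)
    linarith [hd ((n + x + 1) / 2), hd ((x + 1) / 2)]
  have e : edge f n - edge u n
      = ∑ x ∈ range n, f (x + 1) * ((ps f ((n + x + 1) / 2) - ps u ((n + x + 1) / 2))
        - (ps f ((x + 1) / 2) - ps u ((x + 1) / 2)))
        + ∑ x ∈ range n, G x * (f (x + 1) - u (x + 1)) := by
    rw [edge, edge, ← Finset.sum_sub_distrib, ← Finset.sum_add_distrib, hG]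
    exact Finset.sum_congr rfl fun x _ => by ring
  rw [e, abs_le]
  constructor <;> linarith [(abs_le.1 hab).1, (abs_le.1 hab).2, (abs_le.1 b1).1, (abs_le.1 b1).2,
    (abs_le.1 b2).1, (abs_le.1 b2).2]

lemma greedy (T : ℕ → ℝ) (h0 : T 0 = 0) (hT : ∀ j, |T (j + 1) - T j| ≤ 1) :
    ∃ g : ℕ → ℝ, (∀ j, g j = 1 ∨ g j = -1) ∧ ∀ j, |∑ i ∈ range j, g i - T j| ≤ 1 := by
  classical
  obtain ⟨P, hP0, hP⟩ : ∃ P : ℕ → ℝ, P 0 = 0 ∧
      ∀ j, P (j + 1) = if P j ≤ T (j + 1) then P j + 1 else P j - 1 :=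
    ⟨fun j => Nat.rec 0 (fun j x => if x ≤ T (j + 1) then x + 1 else x - 1) j, rfl, fun _ => rfl⟩
  refine ⟨fun j => P (j + 1) - P j, fun j => ?_, fun j => ?_⟩
  · simp only [hP j]
    split_ifs
    · left; ring
    · right; ring
  · rw [Finset.sum_range_sub, hP0, sub_zero]
    induction j with
    | zero => simp [hP0, h0]
    | succ j ih =>
      have a1 := abs_le.1 ih
      have a2 := abs_le.1 (hT j)
      rw [hP j, abs_le]
      split_ifs with h
      · constructor <;> linarith [a1.1, a2.2]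
      · constructor <;> linarith [a1.2, a2.1, not_le.1 h]

lemma build (U V : ℕ → ℝ) (hU0 : U 0 = 0) (hV0 : V 0 = 0) (hU : ∀ t, |U (t + 1) - U t| ≤ 1 / 2)
    (hV : ∀ t, |V (t + 1) - V t| ≤ 1 / 2) :
    ∃ χ : ℕ → Fin 2, (∀ t, |ps (sg χ 0) t - U t| ≤ 4) ∧ ∀ t, |ps (alt (sg χ 0)) t - V t| ≤ 4 := by
  classical
  have hstep : ∀ j (σ : ℝ), σ = 1 ∨ σ = -1 →
      |(U (2 * (j + 1)) + σ * V (2 * (j + 1))) / 2 - (U (2 * j) + σ * V (2 * j)) / 2| ≤ 1 := by
    intro j σ hσ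
    have e : 2 * (j + 1) = 2 * j + 1 + 1 := by ring
    have a1 := abs_le.1 (hU (2 * j))
    have a2 := abs_le.1 (hU (2 * j + 1))
    have a3 := abs_le.1 (hV (2 * j))
    have a4 := abs_le.1 (hV (2 * j + 1))
    rw [e, abs_le]
    rcases hσ with rfl | rfl <;> constructor <;>
      linarith [a1.1, a1.2, a2.1, a2.2, a3.1, a3.2, a4.1, a4.2]
  obtain ⟨ge, hge1, hge⟩ := greedy (fun j => (U (2 * j) + 1 * V (2 * j)) / 2)
    (by simp [hU0, hV0]) (fun j => hstep j 1 (Or.inl rfl))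
  obtain ⟨go, hgo1, hgo⟩ := greedy (fun j => (U (2 * j) + -1 * V (2 * j)) / 2)
    (by simp [hU0, hV0]) (fun j => hstep j (-1) (Or.inr rfl))
  obtain ⟨f, hf⟩ : ∃ f : ℕ → ℝ, f = fun x => if x % 2 = 1 then go (x / 2) else ge (x / 2 - 1) :=
    ⟨_, rfl⟩
  have hf1 : ∀ x, f x = 1 ∨ f x = -1 := by
    intro x
    rw [hf]
    simp only
    split_ifs
    · exact hgo1 _
    · exact hge1 _
  have hsg : sg (fun x => if f x = 1 then 0 else 1) 0 = f := by
    funext x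
    unfold sg
    rcases hf1 x with h | h
    · simp [h]
    · have h' : ¬ f x = 1 := by rw [h]; norm_num
      simp only [if_neg h']
      rw [if_neg (by decide), h]
  have ho : ∀ j, f (2 * j + 1) = go j := by
    intro j
    have e1 : (2 * j + 1) % 2 = 1 := by omega
    have e2 : (2 * j + 1) / 2 = j := by omega
    simp only [hf, e1, e2, if_true]
  have he : ∀ j, f (2 * j + 1 + 1) = ge j := by
    intro j
    have e1 : ¬ (2 * j + 1 + 1) % 2 = 1 := by omega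
    have e2 : (2 * j + 1 + 1) / 2 - 1 = j := by omega
    simp only [hf, e1, e2, if_false]
  have hs : ∀ j, ps f (2 * j) = ∑ i ∈ range j, ge i + ∑ i ∈ range j, go i ∧
      ps (alt f) (2 * j) = ∑ i ∈ range j, ge i - ∑ i ∈ range j, go i := by
    intro j
    induction j with
    | zero => simp [ps]
    | succ j ih =>
      have e : 2 * (j + 1) = 2 * j + 1 + 1 := by ring
      have e1 : (-1 : ℝ) ^ (2 * j) = 1 := by rw [pow_mul]; norm_num
      rw [e]
      simp only [ps_succ, sum_range_succ, ih.1, ih.2, alt, ho, he, pow_succ, e1]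
      constructor <;> ring
  have habs : ∀ x, |f x| ≤ 1 ∧ |alt f x| ≤ 1 := by
    intro x
    rw [alt, abs_mul, abs_pow]
    rcases hf1 x with h | h <;> simp [h]
  refine ⟨fun x => if f x = 1 then 0 else 1, fun t => ?_, fun t => ?_⟩
  all_goals
    rw [hsg]
    obtain ⟨j, rfl | rfl⟩ := Nat.even_or_odd' t
    all_goals
      have a1 := abs_le.1 (hge j)
      have a2 := abs_le.1 (hgo j)
      have a3 := abs_le.1 (hU (2 * j))
      have a4 := abs_le.1 (hV (2 * j))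
      have a5 := abs_le.1 (habs (2 * j + 1)).1
      have a6 := abs_le.1 (habs (2 * j + 1)).2
      simp only [ps_succ, (hs j).1, (hs j).2, abs_le]
      constructor <;>
        linarith [a1.1, a1.2, a2.1, a2.2, a3.1, a3.2, a4.1, a4.2, a5.1, a5.2, a6.1, a6.2]

lemma sqrt_step (a b κ K m : ℝ) (ha : 0 ≤ a) (hκ : 0 < κ) (hm : 0 < m) (hb : (κ * m) ^ 2 ≤ b)
    (h : |b - a| ≤ K * m) : |√b - √a| ≤ K / κ := by
  have hb0 : 0 ≤ b := (sq_nonneg _).trans hb
  have h1 : κ * m ≤ √b := Real.le_sqrt_of_sq_le hb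
  have h2 : |√b - √a| * (√b + √a) = |b - a| := by
    rw [← abs_of_nonneg (by positivity : 0 ≤ √b + √a), ← abs_mul]
    refine congrArg abs ?_
    linear_combination Real.mul_self_sqrt hb0 - Real.mul_self_sqrt ha
  have h3 : |√b - √a| * (κ * m) ≤ |√b - √a| * (√b + √a) :=
    mul_le_mul_of_nonneg_left (by linarith [Real.sqrt_nonneg a]) (abs_nonneg _)
  rw [le_div_iff₀ hκ]
  refine le_of_mul_le_mul_right ?_ hm
  linarith

lemma sq_close (x y N : ℝ) (h : |x - y| ≤ 4) (hx : |x| ≤ N) (hy : |y| ≤ N) :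
    |x ^ 2 - y ^ 2| ≤ 8 * N := by
  have e : x ^ 2 - y ^ 2 = (x - y) * (x + y) := by ring
  rw [e, abs_mul]
  have := mul_le_mul h ((abs_add_le x y).trans (add_le_add hx hy)) (abs_nonneg _) (by norm_num)
  linarith

theorem one_three_two : ∃ χ : ℕ → Fin 2, Bts 3 χ := by
  obtain ⟨τ, hτ, hq⟩ := exists_tau
  have hτ1 : 1 ≤ τ := by linarith
  obtain ⟨κ, hκ0, hκ⟩ : ∃ κ : ℝ, 0 < κ ∧ κ ^ 2 = 1 / (32 * τ) :=
    ⟨√(1 / (32 * τ)), by positivity, Real.sq_sqrt (by positivity)⟩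
  have hκ1 : κ ^ 2 ≤ 1 := by rw [hκ, div_le_one (by linarith)]; linarith
  have hκ2 : 1 / (16 * τ) = 2 * κ ^ 2 := by rw [hκ]; field_simp; norm_num
  obtain ⟨Z, hZ⟩ : ∃ Z : ℕ → ℝ, Z = fun n : ℕ =>
    -(W τ n ^ 2 / 4 + edge (uu τ) n) - κ ^ 2 * (n : ℝ) ^ 2 + 17 * n := ⟨_, rfl⟩
  have hZ1 : ∀ n : ℕ, (κ * n) ^ 2 ≤ Z n := by
    intro n
    have := edge_neg τ hτ hq n
    rw [hκ2] at this
    rw [hZ]
    simp only
    nlinarith
  have hu : ∀ x, |uu τ (x + 1)| ≤ 2 := by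
    intro x
    have := W_lip τ x (x + 1) hτ1 (by positivity) (by positivity)
    rw [uu]
    push_cast
    simpa using this
  have hZ2 : ∀ n : ℕ, |Z (n + 1) - Z n| ≤ 28 * ((n + 1 : ℕ) : ℝ) := by
    intro n
    have hn : (0 : ℝ) ≤ n := by positivity
    have a1 := abs_le.1 (edge_succ _ hu n)
    have a2 := W_lip τ n (n + 1) hτ1 hn (by positivity)
    simp only [add_sub_cancel_left, abs_one, mul_one] at a2
    have a3 := (abs_add_le _ _).trans
      (add_le_add (abs_W_le' τ (n + 1) hτ1 (by positivity)) (abs_W_le' τ n hτ1 hn))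
    have a4 := mul_le_mul a2 a3 (abs_nonneg _) (by norm_num)
    rw [← abs_mul, abs_le] at a4
    have a5 : κ ^ 2 * (2 * n + 1) ≤ 1 * (2 * n + 1) := by gcongr
    have a6 : 0 ≤ κ ^ 2 * (2 * n + 1) := by positivity
    rw [hZ, abs_le]
    push_cast
    constructor <;> nlinarith [a1.1, a1.2, a4.1, a4.2]
  have hZ3 : ∀ n : ℕ, |√(Z (n + 1)) - √(Z n)| ≤ 28 / κ := fun n =>
    sqrt_step _ _ κ 28 _ ((sq_nonneg _).trans (hZ1 n)) hκ0 (by positivity) (hZ1 (n + 1)) (hZ2 n)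
  obtain ⟨ε, hε⟩ : ∃ ε : ℝ, ε = 1 / (4 * (1 + 28 / κ)) := ⟨_, rfl⟩
  have hL : 0 < 28 / κ := by positivity
  have hε0 : 0 < ε := by rw [hε]; positivity
  have hε1 : ε * (4 * (1 + 28 / κ)) = 1 := by rw [hε]; field_simp
  have hε2 : ε * 2 ≤ 1 / 2 := by nlinarith
  have hε3 : 2 * ε * (28 / κ) ≤ 1 / 2 := by nlinarith
  have hue : ∀ x, |ε * uu τ (x + 1)| ≤ 1 / 2 := fun x => by
    rw [abs_mul, abs_of_pos hε0]
    exact (mul_le_mul_of_nonneg_left (hu x) hε0.le).trans hε2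
  have hps : ∀ t, ps (fun x => ε * uu τ x) t = ε * W τ t := fun t => by
    rw [← ps_uu, ps, ps, Finset.mul_sum]
  have hedge : ∀ n, edge (fun x => ε * uu τ x) n = ε ^ 2 * edge (uu τ) n := fun n => by
    simp only [edge, hps, ps_uu, Finset.mul_sum]
    exact Finset.sum_congr rfl fun x _ => by ring
  have hV : ∀ t, |2 * ε * √(Z (t + 1)) - 2 * ε * √(Z t)| ≤ 1 / 2 := fun t => by
    rw [← mul_sub, abs_mul, abs_of_pos (by positivity : 0 < 2 * ε)]
    exact (mul_le_mul_of_nonneg_left (hZ3 t) (by positivity)).trans hε3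
  have hZ0 : Z 0 = 0 := by simp [hZ, W, edge]
  obtain ⟨χ, h1, h2⟩ := build (ps (fun x => ε * uu τ x)) (fun t => 2 * ε * √(Z t)) (ps_zero _)
    (by simp [hZ0]) (fun t => by rw [ps_succ, add_sub_cancel_left]; exact hue t) hV
  refine ⟨χ, 1 / 16 - ε ^ 2 * κ ^ 2 / 4, ?_, 12, fun n => ?_⟩
  · have : 0 < ε ^ 2 * κ ^ 2 / 4 := by positivity
    norm_num
    linarith
  have hn : (0 : ℝ) ≤ n := by positivity
  have hsz : ∀ g : ℕ → ℝ, (∀ x, |g (x + 1)| ≤ 1) → |ps g n| ≤ n := fun g hg => by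
    simpa [ps_zero] using ps_lip g 1 hg 0 n
  have c1 := cnt_three χ 0 n
  have c2 := abs_le.1 (card_three n)
  have c3 := abs_le.1 (edge_compare (sg χ 0) (fun x => ε * uu τ x) (fun x => (abs_sg _ _ _).le)
    (fun x => (hue x).trans (by norm_num)) h1 n)
  have c4 := abs_le.1 (sq_close _ _ n (h1 n) (hsz _ fun x => (abs_sg _ _ _).le)
    (hsz _ fun x => (hue x).trans (by norm_num)))
  have hVn : |2 * ε * √(Z n)| ≤ n := by
    have := hsz (fun x => 2 * ε * √(Z x) - 2 * ε * √(Z (x - 1)))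
      (fun x => (hV x).trans (by norm_num))
    simp only [ps, add_tsub_cancel_right] at this
    rw [Finset.sum_range_sub (fun x => 2 * ε * √(Z x))] at this
    simpa [hZ0] using this
  have c5 := abs_le.1 (sq_close _ _ n (h2 n) (hsz _ fun x => by
    rw [alt, abs_mul, abs_pow, abs_sg]
    simp) hVn)
  have c6 : (2 * ε * √(Z n)) ^ 2 = 4 * ε ^ 2 * Z n := by
    rw [mul_pow, Real.sq_sqrt ((sq_nonneg _).trans (hZ1 n))]
    ring
  have c7 : ε ^ 2 * Z n = -((ε * W τ n) ^ 2 / 4 + ε ^ 2 * edge (uu τ) n)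
      - ε ^ 2 * κ ^ 2 * (n : ℝ) ^ 2 + 17 * (ε ^ 2 * n) := by
    rw [hZ]
    ring
  have c8 : ε ^ 2 * n ≤ 1 * n := mul_le_mul_of_nonneg_right (by nlinarith) hn
  have c9 : 0 ≤ ε ^ 2 * n := by positivity
  rw [hps] at c4
  rw [hedge] at c3
  rw [abs_le]
  constructor <;> linarith [c2.1, c2.2, c3.1, c3.2, c4.1, c4.2, c5.1, c5.2]

end Pool.Agent.MP_6bff71_co.OC
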