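import Pool.Agent.MP_6bff71_co.OC.Periodic
import Pool.Agent.MP_6bff71_co.OC.Build

/-!
Assembly: one colouring of `ℕ` for all `n`; periodic unless `(k, r) = (3, 2)`; in that case no
colour class has a natural density.
-/

open Finset Filter Topology

namespace Pool.Agent.MP_6bff71_co.OC

theorem periodic_all (k r : ℕ) (hk : 3 ≤ k) (hr : 2 ≤ r) (h : (k, r) ≠ (3, 2)) :
    ∃ χ : ℕ → Fin r, Bts k χ ∧ ∃ m, 0 < m ∧ Function.Periodic χ m := by
  rcases hk.eq_or_lt with rfl | hk'
  · refine periodic_three r ?_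
    by_contra h'
    exact h (by rw [show r = 2 by omega])
  · exact periodic_four k r hk' hr

theorem one_all (k r : ℕ) (hk : 3 ≤ k) (hr : 2 ≤ r) : ∃ χ : ℕ → Fin r, Bts k χ := by
  by_cases h : (k, r) = (3, 2)
  · obtain ⟨rfl, rfl⟩ := Prod.mk.inj h
    exact one_three_two
  · obtain ⟨χ, h1, -⟩ := periodic_all k r hk hr h
    exact ⟨χ, h1⟩

lemma ps_sg (χ : ℕ → Fin 2) (c : Fin 2) (t : ℕ) :
    ps (sg χ c) t = 2 * (((Icc 1 t).filter (fun x => χ x = c)).card : ℝ) - t := by
  induction t with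
  | zero => simp [ps]
  | succ t ih =>
    rw [ps_succ, ih, ← Finset.insert_Icc_right_eq_Icc_add_one (by omega), Finset.filter_insert, sg]
    split_ifs with h
    · rw [Finset.card_insert_of_notMem (by simp)]
      push_cast
      ring
    · push_cast
      ring

theorem no_density (χ : ℕ → Fin 2) (h : Bts 3 χ) (c : Fin 2) (β : ℝ) :
    ¬ Tendsto (fun t : ℕ => (((Icc 1 t).filter (fun x => χ x = c)).card : ℝ) / t) atTop (𝓝 β) := by
  intro hT
  refine not_bts_of_linear χ c (2 * β - 1) (fun η hη => ?_) h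
  obtain ⟨t0, ht0⟩ := Metric.tendsto_atTop.1 hT (η / 2) (by positivity)
  refine ⟨(1 + |2 * β - 1|) * t0, fun t => ?_⟩
  have hB : 0 ≤ (1 + |2 * β - 1|) * (t0 : ℝ) := by positivity
  have ht : (0 : ℝ) ≤ t := by positivity
  by_cases h1 : t0 ≤ t
  · rcases Nat.eq_zero_or_pos t with rfl | hpos
    · simpa [ps] using hB
    have hp : (0 : ℝ) < t := by exact_mod_cast hpos
    have h2 := ht0 t h1
    rw [Real.dist_eq] at h2
    have e : ps (sg χ c) t - (2 * β - 1) * t
        = 2 * t * ((((Icc 1 t).filter (fun x => χ x = c)).card : ℝ) / t - β) := by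
      rw [ps_sg]
      field_simp
      ring
    rw [e, abs_mul, abs_of_pos (by positivity : (0 : ℝ) < 2 * t)]
    nlinarith
  · have h2 : (t : ℝ) ≤ t0 := by exact_mod_cast (not_le.1 h1).le
    have h3 : |ps (sg χ c) t| ≤ t := by
      simpa [ps_zero] using ps_lip (sg χ c) 1 (fun x => (abs_sg _ _ _).le) 0 t
    have h4 := abs_sub (ps (sg χ c) t) ((2 * β - 1) * t)
    rw [abs_mul, abs_of_nonneg ht] at h4
    have h5 := mul_le_mul_of_nonneg_left h2 (by positivity : 0 ≤ 1 + |2 * β - 1|)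
    have h6 : 0 ≤ η * t := by positivity
    linarith

theorem not_periodic (χ : ℕ → Fin 2) (h : Bts 3 χ) (m : ℕ) (hm : 0 < m) :
    ¬ Function.Periodic χ m := by
  intro hper
  have hm' : (0 : ℝ) < m := by exact_mod_cast hm
  refine not_bts_of_linear χ 0 (ps (sg χ 0) m / m) (fun η hη => ⟨m * 2, fun t => ?_⟩) h
  have h1 : |ps (sg χ 0) m / m| ≤ 1 := by
    rw [abs_div, abs_of_pos hm', div_le_one hm']
    simpa [ps_zero] using ps_lip (sg χ 0) 1 (fun x => (abs_sg _ _ _).le) 0 m
  have h2 := periodic_sum_le (fun x => sg χ 0 (x + 1) - ps (sg χ 0) m / m) m hm 2 (fun x => by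
      have : m + x + 1 = x + 1 + m := by ring
      simp only [sg, this, hper (x + 1)]) (by
      rw [Finset.sum_sub_distrib, sum_const, card_range, nsmul_eq_mul, mul_div_cancel₀ _ hm'.ne']
      exact sub_self _) (fun x => by
      refine (abs_sub _ _).trans ?_
      rw [abs_sg]
      linarith) t
  rw [Finset.sum_sub_distrib, sum_const, card_range, nsmul_eq_mul, mul_comm (t : ℝ)] at h2
  have h3 : 0 ≤ η * t := by positivity
  exact h2.trans (by linarith)

end Pool.Agent.MP_6bff71_co.OC
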