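import Mathlib

/-!
Quadratic character sums over `ZMod p`, and correlations of a sum of quadratic phases along
progressions.
-/

open Finset

namespace Pool.Agent.MP_6bff71_co.OC

variable {p : ℕ} [Fact p.Prime] {ψ : AddChar (ZMod p) ℂ}

lemma lin_sum (hψ : ψ.IsPrimitive) (b : ZMod p) :
    ∑ x : ZMod p, ψ (b * x) = if b = 0 then (p : ℂ) else 0 := by
  have := AddChar.sum_mulShift b hψ
  simp only [mul_comm b]
  rw [this, ZMod.card]
  split_ifs <;> simp

lemma gauss_le (hψ : ψ.IsPrimitive) (h2 : (2 : ZMod p) ≠ 0) (α β : ZMod p) (hα : α ≠ 0) :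
    ‖∑ a : ZMod p, ψ (α * a ^ 2 + β * a)‖ ≤ √p := by
  apply Real.le_sqrt_of_sq_le
  have e : (∑ a : ZMod p, ψ (α * a ^ 2 + β * a))
      * (starRingEnd ℂ) (∑ a : ZMod p, ψ (α * a ^ 2 + β * a)) = p := by
    rw [map_sum, mul_comm, Finset.sum_mul]
    have e1 : ∀ b : ZMod p, (starRingEnd ℂ) (ψ (α * b ^ 2 + β * b))
        * ∑ a : ZMod p, ψ (α * a ^ 2 + β * a)
        = ∑ h : ZMod p, ψ (α * h ^ 2 + β * h) * ψ ((2 * α * h) * b) := by
      intro b
      rw [← AddChar.map_neg_eq_conj, Finset.mul_sum, ← Equiv.sum_comp (Equiv.addLeft b)]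
      apply Finset.sum_congr rfl
      intro h _
      rw [← AddChar.map_add_eq_mul, ← AddChar.map_add_eq_mul]
      refine congrArg ψ ?_
      simp only [Equiv.coe_addLeft]
      ring
    simp only [e1]
    rw [Finset.sum_comm]
    simp only [← Finset.mul_sum, lin_sum hψ]
    rw [Finset.sum_eq_single 0]
    · simp
    · intro h _ hh
      rw [if_neg (mul_ne_zero (mul_ne_zero h2 hα) hh), mul_zero]
    · simp
  rw [Complex.mul_conj, Complex.normSq_eq_norm_sq] at e
  exact le_of_eq (by exact_mod_cast e)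

lemma two_dim (hψ : ψ.IsPrimitive) (h2 : (2 : ZMod p) ≠ 0) (c20 c11 c02 c10 c01 : ZMod p)
    (hne : ¬ (c20 = 0 ∧ c11 = 0 ∧ c02 = 0 ∧ c10 = 0 ∧ c01 = 0)) :
    ‖∑ d : ZMod p, ∑ a : ZMod p,
      ψ (c20 * a ^ 2 + c11 * a * d + c02 * d ^ 2 + c10 * a + c01 * d)‖ ≤ p * √p := by
  have hp : p.Prime := Fact.out
  have hp1 : (1 : ℝ) ≤ p := by exact_mod_cast hp.one_le
  have hs1 : (1 : ℝ) ≤ √p := Real.one_le_sqrt.2 hp1
  have e : ∀ d : ZMod p, ∑ a : ZMod p,
      ψ (c20 * a ^ 2 + c11 * a * d + c02 * d ^ 2 + c10 * a + c01 * d)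
      = ψ (c02 * d ^ 2 + c01 * d) * ∑ a : ZMod p, ψ (c20 * a ^ 2 + (c11 * d + c10) * a) := by
    intro d
    rw [Finset.mul_sum]
    apply Finset.sum_congr rfl
    intro a _
    rw [← AddChar.map_add_eq_mul]
    refine congrArg ψ ?_
    ring
  simp only [e]
  by_cases h20 : c20 = 0
  · subst h20
    simp only [zero_mul, zero_add, lin_sum hψ]
    by_cases h11 : c11 = 0
    · subst h11
      simp only [zero_mul, zero_add]
      by_cases h10 : c10 = 0
      · subst h10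
        simp only [if_true]
        rw [← Finset.sum_mul, norm_mul, Complex.norm_natCast, mul_comm]
        by_cases h02 : c02 = 0
        · subst h02
          have h01 : c01 ≠ 0 := fun h => hne ⟨rfl, rfl, rfl, rfl, h⟩
          simp only [zero_mul, zero_add, lin_sum hψ, if_neg h01, norm_zero, mul_zero]
          positivity
        · exact mul_le_mul_of_nonneg_left (gauss_le hψ h2 _ _ h02) (by positivity)
      · simp only [if_neg h10, mul_zero, sum_const_zero, norm_zero]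
        positivity
    · rw [Finset.sum_eq_single (-c10 / c11)]
      · rw [norm_mul, AddChar.norm_apply, one_mul]
        split_ifs
        · rw [Complex.norm_natCast]
          nlinarith
        · rw [norm_zero]
          positivity
      · intro d _ hd
        rw [if_neg, mul_zero]
        intro h
        apply hd
        field_simp
        linear_combination h
      · simp
  · refine (norm_sum_le _ _).trans ?_
    refine (Finset.sum_le_sum (g := fun _ => √p) fun d _ => ?_).trans ?_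
    · rw [norm_mul, AddChar.norm_apply, one_mul]
      exact gauss_le hψ h2 _ _ h20
    · simp [ZMod.card]

lemma char_sum {ι : Type*} (s : Finset ι) (x : ι → ZMod p) :
    ∏ t ∈ s, ψ (x t) = ψ (∑ t ∈ s, x t) := by
  classical
  induction s using Finset.induction_on with
  | empty => simp
  | insert a s ha ih => rw [prod_insert ha, sum_insert ha, AddChar.map_add_eq_mul, ih]

/-- The phases chosen by `j` cancel identically along the positions `e`. -/
def Sol {J : Type} {n : ℕ} (u m : J → ℤ) (e : Fin n → ℕ) (j : Fin n → J) : Prop :=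
  ∑ t, m (j t) = 0 ∧ ∑ t, m (j t) * e t = 0 ∧ ∑ t, m (j t) * (e t : ℤ) ^ 2 = 0 ∧
    ∑ t, u (j t) = 0 ∧ ∑ t, u (j t) * e t = 0

lemma cast_zero {n k : ℕ} (hp : 3 * n * k ^ 2 < p) (c : Fin n → ℤ)
    (hc : ∀ t, |c t| ≤ 3 * (k : ℤ) ^ 2) (h : ∑ t, ((c t : ℤ) : ZMod p) = 0) : ∑ t, c t = 0 := by
  have h1 : ((∑ t, c t : ℤ) : ZMod p) = 0 := by push_cast; exact h
  rw [ZMod.intCast_zmod_eq_zero_iff_dvd] at h1
  refine Int.eq_zero_of_abs_lt_dvd h1 ?_
  refine (Finset.abs_sum_le_sum_abs _ _).trans_lt ?_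
  refine (Finset.sum_le_sum fun t _ => hc t).trans_lt ?_
  simp only [sum_const, card_univ, Fintype.card_fin, nsmul_eq_mul]
  have : ((3 * n * k ^ 2 : ℕ) : ℤ) < p := by exact_mod_cast hp
  push_cast at this
  linarith

open Classical in
lemma corr_le (hψ : ψ.IsPrimitive) (h2 : (2 : ZMod p) ≠ 0) {J : Type} [Fintype J] (w : J → ℝ)
    (u m : J → ℤ) (hw : ∀ j, |w j| ≤ 1) (hu : ∀ j, |u j| ≤ 3) (hm : ∀ j, |m j| ≤ 3)
    (f : ZMod p → ℝ) (hf : ∀ x, (f x : ℂ) = ∑ j, (w j : ℂ) * ψ (u j * x + m j * x ^ 2))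
    {n k : ℕ} (hk : 1 ≤ k) (hp : 3 * n * k ^ 2 < p) (e : Fin n → ℕ) (he : ∀ t, e t ≤ k) :
    ∑ d : ZMod p, ∑ a : ZMod p, ∏ t, f (a + (e t : ℕ) * d)
      ≤ (p : ℝ) ^ 2 * ∑ j : Fin n → J, (if Sol u m e j then ∏ t, w (j t) else 0)
        + (Fintype.card J : ℝ) ^ n * (p * √p) := by
  obtain ⟨E, hE⟩ : ∃ E : (Fin n → J) → ℂ, E = fun j => ∑ d : ZMod p, ∑ a : ZMod p,
    ψ ((∑ t, (m (j t) : ZMod p)) * a ^ 2 + (2 * ∑ t, ((m (j t) * e t : ℤ) : ZMod p)) * a * d
      + (∑ t, ((m (j t) * (e t : ℤ) ^ 2 : ℤ) : ZMod p)) * d ^ 2 + (∑ t, (u (j t) : ZMod p)) * a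
      + (∑ t, ((u (j t) * e t : ℤ) : ZMod p)) * d) := ⟨_, rfl⟩
  have e1 : ((∑ d : ZMod p, ∑ a : ZMod p, ∏ t, f (a + (e t : ℕ) * d) : ℝ) : ℂ)
      = ∑ j : Fin n → J, ((∏ t, w (j t) : ℝ) : ℂ) * E j := by
    push_cast
    simp only [hf, Finset.prod_univ_sum, Fintype.piFinset_univ, hE, Finset.mul_sum]
    rw [Finset.sum_comm]
    symm
    rw [Finset.sum_comm]
    symm
    rw [Finset.sum_comm]
    apply Finset.sum_congr rfl
    intro d _
    rw [Finset.sum_comm]
    apply Finset.sum_congr rfl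
    intro j _
    apply Finset.sum_congr rfl
    intro a _
    rw [Finset.prod_mul_distrib, char_sum]
    refine congrArg (fun z => (∏ t, (w (j t) : ℂ)) * ψ z) ?_
    simp only [Finset.sum_mul, ← Finset.sum_add_distrib]
    apply Finset.sum_congr rfl
    intro t _
    push_cast
    ring
  have e2 := congrArg Complex.re e1
  rw [Complex.ofReal_re, Complex.re_sum] at e2
  rw [e2, Finset.mul_sum]
  have e3 : (Fintype.card J : ℝ) ^ n * (p * √p) = ∑ _j : Fin n → J, (p : ℝ) * √p := by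
    simp
  rw [e3, ← Finset.sum_add_distrib]
  apply Finset.sum_le_sum
  intro j _
  rw [Complex.re_ofReal_mul]
  have hW : |∏ t, w (j t)| ≤ 1 := by
    rw [Finset.abs_prod]
    exact Finset.prod_le_one (fun _ _ => abs_nonneg _) (fun t _ => hw _)
  have hk' : (1 : ℤ) ≤ k := by exact_mod_cast hk
  have he' : ∀ t, |(e t : ℤ)| ≤ k := fun t => by
    rw [Nat.abs_cast]; exact_mod_cast he t
  split_ifs with h
  · obtain ⟨h1, h2, h3, h4, h5⟩ := h
    have c : ∀ c : Fin n → ℤ, ∑ t, c t = 0 → ∑ t, ((c t : ℤ) : ZMod p) = 0 := by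
      intro c hc
      rw [← Int.cast_sum, hc, Int.cast_zero]
    have : E j = (p : ℂ) ^ 2 := by
      rw [hE]
      simp only [c _ h1, c _ h2, c _ h3, c _ h4, c _ h5]
      simp [ZMod.card, sq]
    rw [this]
    have e4 : ((p : ℂ) ^ 2).re = (p : ℝ) ^ 2 := by norm_cast
    rw [e4, mul_comm]
    have : (0 : ℝ) ≤ p * √p := by positivity
    linarith
  · rw [mul_zero, zero_add]
    have b0 : ∀ x : ℤ, |x| ≤ 3 → |x| ≤ 3 * (k : ℤ) ^ 2 := fun x hx => by nlinarith
    have b1 : ∀ (x : ℤ) t, |x| ≤ 3 → |x * e t| ≤ 3 * (k : ℤ) ^ 2 := by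
      intro x t hx
      rw [abs_mul]
      have := mul_le_mul hx (he' t) (abs_nonneg _) (by norm_num)
      nlinarith
    have b2 : ∀ (x : ℤ) t, |x| ≤ 3 → |x * (e t : ℤ) ^ 2| ≤ 3 * (k : ℤ) ^ 2 := by
      intro x t hx
      rw [abs_mul, abs_pow]
      exact mul_le_mul hx (pow_le_pow_left₀ (abs_nonneg _) (he' t) 2) (by positivity) (by norm_num)
    have hn : ‖E j‖ ≤ p * √p := by
      rw [hE]
      apply two_dim hψ h2
      rintro ⟨h1, h3, h4, h5, h6⟩
      exact h ⟨cast_zero hp _ (fun t => b0 _ (hm _)) h1,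
        cast_zero hp _ (fun t => b1 _ t (hm _)) ((mul_eq_zero.1 h3).resolve_left h2),
        cast_zero hp _ (fun t => b2 _ t (hm _)) h4,
        cast_zero hp _ (fun t => b0 _ (hu _)) h5,
        cast_zero hp _ (fun t => b1 _ t (hu _)) h6⟩
    refine (le_abs_self _).trans ?_
    rw [abs_mul]
    have := mul_le_mul hW ((Complex.abs_re_le_norm _).trans hn) (abs_nonneg _) (by norm_num)
    linarith

end Pool.Agent.MP_6bff71_co.OC
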