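import Mathlib
import Pool.Agent.MP_6bff71_co.Main

/-!
Sums over the progressions in `[n]`: two parametrisations, the number of progressions, and the
sum of a doubly periodic function.
-/

open Finset

namespace Pool.Agent.MP_6bff71_co.OC

/-- Sum over progressions, by difference and first term. -/
lemma sum_AP_diff (k n : ℕ) (hk : 2 ≤ k) (g : ℕ × ℕ → ℝ) :
    ∑ q ∈ AP k n, g q
      = ∑ d ∈ range n, ∑ a ∈ range (n - (k - 1) * (d + 1)), g (a + 1, d + 1) := by
  rw [Finset.sum_sigma']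
  symm
  refine Finset.sum_bij' (fun x _ => (x.2 + 1, x.1 + 1)) (fun q _ => ⟨q.2 - 1, q.1 - 1⟩)
    ?_ ?_ ?_ ?_ ?_
  · rintro ⟨d, a⟩ h
    simp only [mem_sigma, mem_range] at h
    rw [mem_AP hk]
    simp only
    omega
  · rintro ⟨a, d⟩ h
    rw [mem_AP hk] at h
    simp only at h
    have h1 : 1 * d ≤ (k - 1) * d := Nat.mul_le_mul_right _ (by omega)
    have h2 : d - 1 + 1 = d := by omega
    simp only [mem_sigma, mem_range, h2]
    omega
  · rintro ⟨d, a⟩ _
    simp
  · rintro ⟨a, d⟩ h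
    rw [mem_AP hk] at h
    simp only at h
    ext
    · simp only; omega
    · simp only; omega
  · rintro ⟨d, a⟩ _
    rfl

/-- Sum over three-term progressions, by first term and difference. -/
lemma sum_AP_first (n : ℕ) (g : ℕ × ℕ → ℝ) :
    ∑ q ∈ AP 3 n, g q
      = ∑ a ∈ range n, ∑ d ∈ range ((n - (a + 1)) / 2), g (a + 1, d + 1) := by
  rw [Finset.sum_sigma']
  symm
  refine Finset.sum_bij' (fun x _ => (x.1 + 1, x.2 + 1)) (fun q _ => ⟨q.1 - 1, q.2 - 1⟩)
    ?_ ?_ ?_ ?_ ?_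
  · rintro ⟨a, d⟩ h
    simp only [mem_sigma, mem_range] at h
    rw [mem_AP (by norm_num)]
    simp only
    omega
  · rintro ⟨a, d⟩ h
    rw [mem_AP (by norm_num)] at h
    simp only at h
    simp only [mem_sigma, mem_range]
    omega
  · rintro ⟨d, a⟩ _
    simp
  · rintro ⟨a, d⟩ h
    rw [mem_AP (by norm_num)] at h
    simp only at h
    ext
    · simp only; omega
    · simp only; omega
  · rintro ⟨d, a⟩ _
    rfl

/-- Sum over three-term progressions, by last term and difference. -/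
lemma sum_AP_last (n : ℕ) (g : ℕ × ℕ → ℝ) :
    ∑ q ∈ AP 3 n, g q
      = ∑ z ∈ range n, ∑ d ∈ range (z / 2), g (z + 1 - 2 * (d + 1), d + 1) := by
  rw [Finset.sum_sigma']
  symm
  refine Finset.sum_bij' (fun x _ => (x.1 + 1 - 2 * (x.2 + 1), x.2 + 1))
    (fun q _ => ⟨q.1 + 2 * q.2 - 1, q.2 - 1⟩) ?_ ?_ ?_ ?_ ?_
  · rintro ⟨z, d⟩ h
    simp only [mem_sigma, mem_range] at h
    rw [mem_AP (by norm_num)]
    simp only
    omega
  · rintro ⟨a, d⟩ h
    rw [mem_AP (by norm_num)] at h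
    simp only at h
    simp only [mem_sigma, mem_range]
    omega
  · rintro ⟨z, d⟩ h
    simp only [mem_sigma, mem_range] at h
    have h1 : z + 1 - 2 * (d + 1) + 2 * (d + 1) - 1 = z := by omega
    simp only [h1, add_tsub_cancel_right]
  · rintro ⟨a, d⟩ h
    rw [mem_AP (by norm_num)] at h
    simp only at h
    ext
    · simp only; omega
    · simp only; omega
  · rintro ⟨d, a⟩ _
    rfl

lemma card_AP_ge (k n : ℕ) (hk : 2 ≤ k) :
    n ^ 2 ≤ 2 * (k - 1) * (AP k n).card + 2 * k * n := by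
  induction n with
  | zero => simp
  | succ n ih =>
    have h : (AP k n).card + n / (k - 1) ≤ (AP k (n + 1)).card := by
      have hc : ((Icc 1 (n / (k - 1))).image (fun d => (n + 1 - (k - 1) * d, d))).card
          = n / (k - 1) := by
        rw [Finset.card_image_of_injective _ (fun d d' h => (Prod.ext_iff.1 h).2)]
        simp
      rw [← hc, ← Finset.card_union_of_disjoint]
      · apply Finset.card_le_card
        intro q hq
        rw [mem_union, mem_AP hk, mem_image] at hq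
        rw [mem_AP hk]
        rcases hq with hq | ⟨d, hd, rfl⟩
        · omega
        · rw [mem_Icc, Nat.le_div_iff_mul_le (by omega), mul_comm] at hd
          simp only
          omega
      · rw [Finset.disjoint_left]
        intro q hq hq'
        rw [mem_AP hk] at hq
        obtain ⟨d, hd, rfl⟩ := mem_image.1 hq'
        rw [mem_Icc, Nat.le_div_iff_mul_le (by omega), mul_comm] at hd
        simp only at hq
        omega
    have h2 : n < (k - 1) * (n / (k - 1)) + (k - 1) := by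
      have := Nat.div_add_mod n (k - 1)
      have := Nat.mod_lt n (show 0 < k - 1 by omega)
      omega
    have h3 : 2 * (k - 1) * ((AP k n).card + n / (k - 1)) ≤ 2 * (k - 1) * (AP k (n + 1)).card :=
      Nat.mul_le_mul_left _ h
    have h4 : 2 * (k - 1) * ((AP k n).card + n / (k - 1))
        = 2 * (k - 1) * (AP k n).card + 2 * ((k - 1) * (n / (k - 1))) := by ring
    have h5 : (n + 1) ^ 2 = n ^ 2 + 2 * n + 1 := by ring
    have h6 : 2 * k * (n + 1) = 2 * k * n + 2 * k := by ring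
    omega

lemma card_AP_abs (k n : ℕ) (hk : 2 ≤ k) :
    |((AP k n).card : ℝ) - 1 / (2 * ((k : ℝ) - 1)) * (n : ℝ) ^ 2| ≤ (k : ℝ) * n := by
  have e : ((k : ℝ) - 1) = ((k - 1 : ℕ) : ℝ) := by
    rw [Nat.cast_sub (by omega)]; simp
  have h1 : 2 * ((k : ℝ) - 1) * (AP k n).card ≤ (n : ℝ) ^ 2 := by
    rw [e]; exact_mod_cast card_AP_le k n hk
  have h2 : (n : ℝ) ^ 2 ≤ 2 * ((k : ℝ) - 1) * (AP k n).card + 2 * k * n := by
    rw [e]; exact_mod_cast card_AP_ge k n hk
  have hk' : (2 : ℝ) ≤ k := by exact_mod_cast hk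
  have hD : (0 : ℝ) < 2 * ((k : ℝ) - 1) := by linarith
  have hkn : (0 : ℝ) ≤ k * n := by positivity
  have e2 : ((AP k n).card : ℝ) - 1 / (2 * ((k : ℝ) - 1)) * (n : ℝ) ^ 2
      = (2 * ((k : ℝ) - 1) * (AP k n).card - (n : ℝ) ^ 2) / (2 * ((k : ℝ) - 1)) := by
    have : (k : ℝ) - 1 ≠ 0 := by linarith
    field_simp
  rw [e2, abs_div, abs_of_pos hD, div_le_iff₀ hD, abs_le]
  constructor <;> nlinarith

/-- Initial sums of a periodic sequence of mean zero are bounded. -/
lemma periodic_sum_le (u : ℕ → ℝ) (p : ℕ) (hp : 0 < p) (B : ℝ) (hper : ∀ x, u (p + x) = u x)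
    (h0 : ∑ x ∈ range p, u x = 0) (hB : ∀ x, |u x| ≤ B) (t : ℕ) :
    |∑ x ∈ range t, u x| ≤ p * B := by
  have hB0 : 0 ≤ B := (abs_nonneg _).trans (hB 0)
  induction t using Nat.strong_induction_on with
  | _ t ih =>
    by_cases h : t < p
    · refine (Finset.abs_sum_le_sum_abs _ _).trans ?_
      refine (Finset.sum_le_sum fun x _ => hB x).trans ?_
      simp only [sum_const, card_range, nsmul_eq_mul]
      have : (t : ℝ) ≤ p := by exact_mod_cast h.le
      gcongr
    · obtain ⟨s, rfl⟩ := Nat.exists_eq_add_of_le (not_lt.1 h)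
      rw [Finset.sum_range_add, h0, zero_add]
      simp only [hper]
      exact ih s (by omega)

/-- The sum of a doubly periodic function over the progressions in `[n]`. -/
lemma unroll (k p : ℕ) (hk : 2 ≤ k) (hp : 0 < p) (G : ℕ × ℕ → ℝ)
    (h1 : ∀ a d, G (p + a, d) = G (a, d)) (h2 : ∀ a d, G (a, p + d) = G (a, d))
    (hG : ∀ q, |G q| ≤ 1) (n : ℕ) :
    |∑ q ∈ AP k n, G q - (∑ d ∈ range p, ∑ a ∈ range p, G (a + 1, d + 1)) / (p : ℝ) ^ 2
      * (1 / (2 * ((k : ℝ) - 1)) * (n : ℝ) ^ 2)| ≤ (2 * (p : ℝ) + 2 * p * k + 2 * p + k) * n := by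
  have hp' : (0 : ℝ) < p := by exact_mod_cast hp
  obtain ⟨g, hg⟩ : ∃ g : ℕ → ℝ, g = fun d => (∑ a ∈ range p, G (a + 1, d + 1)) / p := ⟨_, rfl⟩
  obtain ⟨m, hm⟩ : ∃ m : ℝ, m = (∑ d ∈ range p, g d) / p := ⟨_, rfl⟩
  have hmean : ∀ v : ℕ → ℝ, (∀ x, |v x| ≤ 1) → |(∑ x ∈ range p, v x) / p| ≤ 1 := by
    intro v hv
    rw [abs_div, abs_of_pos hp', div_le_one hp']
    refine (Finset.abs_sum_le_sum_abs _ _).trans ?_
    refine (Finset.sum_le_sum fun x _ => hv x).trans ?_
    simp
  have hg1 : ∀ d, |g d| ≤ 1 := fun d => by rw [hg]; exact hmean _ fun x => hG _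
  have hm1 : |m| ≤ 1 := by rw [hm]; exact hmean _ hg1
  have em : (∑ d ∈ range p, ∑ a ∈ range p, G (a + 1, d + 1)) / (p : ℝ) ^ 2 = m := by
    rw [hm, hg]
    simp only
    rw [← Finset.sum_div]
    field_simp
  rw [em]
  have two : ∀ x y : ℝ, |x| ≤ 1 → |y| ≤ 1 → |x - y| ≤ 2 := fun x y hx hy =>
    (abs_sub _ _).trans (by linarith)
  have ha : ∀ d t, |∑ a ∈ range t, (G (a + 1, d + 1) - g d)| ≤ p * 2 := by
    intro d t
    refine periodic_sum_le _ p hp 2 (fun x => ?_) ?_ (fun x => two _ _ (hG _) (hg1 _)) t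
    · rw [add_assoc, h1]
    · rw [Finset.sum_sub_distrib, hg]
      simp only [sum_const, card_range, nsmul_eq_mul]
      field_simp
      ring
  have hd : ∀ t, |∑ d ∈ range t, (g d - m)| ≤ p * 2 := by
    intro t
    refine periodic_sum_le _ p hp 2 (fun x => ?_) ?_ (fun x => two _ _ (hg1 _) hm1) t
    · rw [hg]
      simp only [add_assoc, h2]
    · rw [Finset.sum_sub_distrib, hm]
      simp only [sum_const, card_range, nsmul_eq_mul]
      field_simp
      ring
  obtain ⟨L, hL⟩ : ∃ L : ℕ → ℝ, L = fun d => ((n - (k - 1) * (d + 1) : ℕ) : ℝ) := ⟨_, rfl⟩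
  have hLk : ∀ d, |L (d + 1) - L d| ≤ k := by
    intro d
    have e : (k - 1) * (d + 1 + 1) = (k - 1) * (d + 1) + (k - 1) := by ring
    have a1 : n - (k - 1) * (d + 1 + 1) ≤ n - (k - 1) * (d + 1) := by omega
    have a2 : n - (k - 1) * (d + 1) ≤ n - (k - 1) * (d + 1 + 1) + k := by omega
    have a1' : L (d + 1) ≤ L d := by rw [hL]; simp only; exact_mod_cast a1
    have a2' : L d ≤ L (d + 1) + k := by rw [hL]; simp only; exact_mod_cast a2
    rw [abs_le]
    constructor <;> linarith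
  have hLn : |L n| ≤ n := by
    rw [hL]
    simp only [Nat.abs_cast]
    exact_mod_cast Nat.sub_le _ _
  have hab := abel_bound (fun d => g d - m) L (p * 2) k hd hLk n
  have hcard : ((AP k n).card : ℝ) = ∑ d ∈ range n, L d := by
    have := sum_AP_diff k n hk (fun _ => 1)
    simpa [hL] using this
  have e1 : ∑ q ∈ AP k n, G q = ∑ d ∈ range n, ∑ a ∈ range (n - (k - 1) * (d + 1)),
      (G (a + 1, d + 1) - g d) + ∑ d ∈ range n, L d * (g d - m) + m * (AP k n).card := by
    rw [sum_AP_diff k n hk, hcard, Finset.mul_sum, ← Finset.sum_add_distrib,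
      ← Finset.sum_add_distrib]
    apply Finset.sum_congr rfl
    intro d _
    rw [Finset.sum_sub_distrib, hL]
    simp only [sum_const, card_range, nsmul_eq_mul]
    ring
  have b1 : |∑ d ∈ range n, ∑ a ∈ range (n - (k - 1) * (d + 1)), (G (a + 1, d + 1) - g d)|
      ≤ p * 2 * n := by
    refine (Finset.abs_sum_le_sum_abs _ _).trans ?_
    refine (Finset.sum_le_sum fun d _ => ha d _).trans ?_
    simp only [sum_const, card_range, nsmul_eq_mul]
    exact le_of_eq (by ring)
  have b2 : |L n * ∑ d ∈ range n, (g d - m)| ≤ n * (p * 2) := by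
    rw [abs_mul]
    exact mul_le_mul hLn (hd n) (abs_nonneg _) (by positivity)
  have b3 : |m * (AP k n).card - m * (1 / (2 * ((k : ℝ) - 1)) * (n : ℝ) ^ 2)| ≤ 1 * ((k : ℝ) * n) := by
    rw [← mul_sub, abs_mul]
    exact mul_le_mul hm1 (card_AP_abs k n hk) (abs_nonneg _) (by norm_num)
  rw [e1]
  rw [abs_le] at *
  constructor <;> nlinarith [b1.1, b1.2, b2.1, b2.2, b3.1, b3.2, hab.1, hab.2]

end Pool.Agent.MP_6bff71_co.OC
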