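import Pool.Agent.MP_6bff71_co.OC.Three

/-!
The oscillating profile `t sin (τ log t) / τ` has negative pair correlation at every scale.
-/

open Finset Real

namespace Pool.Agent.MP_6bff71_co.OC

/-- The profile of the initial sums. -/
noncomputable def W (τ t : ℝ) : ℝ := t * sin (τ * log t) / τ

/-- Its increments. -/
noncomputable def uu (τ : ℝ) (x : ℕ) : ℝ := W τ x - W τ ((x : ℝ) - 1)

lemma ps_uu (τ : ℝ) (t : ℕ) : ps (uu τ) t = W τ t := by
  induction t with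
  | zero => simp [ps, W]
  | succ t ih =>
    rw [ps_succ, ih, uu]
    push_cast
    simp

lemma mono_step (Φ : ℝ → ℝ) (a b : ℝ) (hab : a ≤ b)
    (h : ∀ s ∈ Set.Icc a b, ∃ D, 0 ≤ D ∧ HasDerivAt Φ D s) : Φ a ≤ Φ b := by
  refine monotoneOn_of_deriv_nonneg (convex_Icc a b) ?_ ?_ ?_ (Set.left_mem_Icc.2 hab)
    (Set.right_mem_Icc.2 hab) hab
  · intro s hs
    obtain ⟨D, -, hD⟩ := h s hs
    exact hD.continuousAt.continuousWithinAt
  · intro s hs
    obtain ⟨D, -, hD⟩ := h s (interior_subset hs)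
    exact hD.differentiableAt.differentiableWithinAt
  · intro s hs
    obtain ⟨D, h0, hD⟩ := h s (interior_subset hs)
    rwa [hD.deriv]

lemma th_deriv (τ s : ℝ) (hs : 0 < s) : HasDerivAt (fun s => τ * log s) (τ / s) s :=
  ((hasDerivAt_log hs.ne').const_mul τ).congr_deriv (by ring)

lemma W_deriv (τ s : ℝ) (hτ : 1 ≤ τ) (hs : 0 < s) :
    HasDerivAt (W τ) (cos (τ * log s) + sin (τ * log s) / τ) s := by
  have h := ((hasDerivAt_id' s).mul (th_deriv τ s hs).sin).div_const τ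
  refine h.congr_deriv ?_
  field_simp
  ring

lemma W'_le (τ θ : ℝ) (hτ : 1 ≤ τ) : |cos θ + sin θ / τ| ≤ 2 := by
  refine (abs_add_le _ _).trans ?_
  have h1 := abs_cos_le_one θ
  have h2 : |sin θ / τ| ≤ 1 := by
    rw [abs_div, abs_of_pos (by linarith : 0 < τ), div_le_one (by linarith)]
    linarith [abs_sin_le_one θ]
  linarith

lemma abs_W_le (τ t : ℝ) (hτ : 1 ≤ τ) (ht : 0 ≤ t) : |W τ t| ≤ t / τ := by
  rw [W, abs_div, abs_mul, abs_of_nonneg ht, abs_of_pos (by linarith : 0 < τ)]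
  exact div_le_div_of_nonneg_right (mul_le_of_le_one_right ht (abs_sin_le_one _)) (by linarith)

lemma abs_W_le' (τ t : ℝ) (hτ : 1 ≤ τ) (ht : 0 ≤ t) : |W τ t| ≤ t :=
  (abs_W_le τ t hτ ht).trans (div_le_self ht hτ)

lemma W_lip (τ a b : ℝ) (hτ : 1 ≤ τ) (ha : 0 ≤ a) (hb : 0 ≤ b) :
    |W τ b - W τ a| ≤ 2 * |b - a| := by
  wlog hab : a ≤ b generalizing a b
  · rw [abs_sub_comm, abs_sub_comm b]
    exact this b a hb ha (by linarith)
  rw [abs_of_nonneg (sub_nonneg.2 hab)]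
  rcases ha.eq_or_lt with rfl | ha'
  · have := abs_W_le' τ b hτ hb
    simp only [W, zero_mul, zero_div, sub_zero] at this ⊢
    linarith
  have h1 := mono_step (fun s => 2 * s + W τ s) a b hab fun s hs =>
    ⟨_, by linarith [(abs_le.1 (W'_le τ (τ * log s) hτ)).1],
      ((hasDerivAt_id' s).const_mul 2).add (W_deriv τ s hτ (ha'.trans_le hs.1))⟩
  have h2 := mono_step (fun s => 2 * s - W τ s) a b hab fun s hs =>
    ⟨_, by linarith [(abs_le.1 (W'_le τ (τ * log s) hτ)).2],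
      ((hasDerivAt_id' s).const_mul 2).sub (W_deriv τ s hτ (ha'.trans_le hs.1))⟩
  rw [abs_le]
  constructor <;> linarith

lemma quot_deriv (N s a b P' : ℝ) (P : ℝ → ℝ) (hN : 0 < N) (hs : 0 ≤ s)
    (hP : HasDerivAt P P' s) (h0 : 0 ≤ P s) (h1 : P s ≤ a * N ^ 4) (h2 : 0 ≤ P')
    (h3 : P' ≤ b * N ^ 3) (ha : 0 ≤ a) (hb : 0 ≤ b) :
    ∃ D, |D| ≤ (b / 2 + a) * N ∧ HasDerivAt (fun s => P s / (2 * N * (N + 2 * s))) D s := by
  have hQ : HasDerivAt (fun s => 2 * N * (N + 2 * s)) (4 * N) s :=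
    ((((hasDerivAt_id' s).const_mul 2).const_add N).const_mul (2 * N)).congr_deriv (by ring)
  have hQ0 : 2 * N ^ 2 ≤ 2 * N * (N + 2 * s) := by nlinarith
  have hN2 : 0 < 2 * N ^ 2 := by positivity
  refine ⟨_, ?_, hP.fun_div hQ (by linarith)⟩
  generalize 2 * N * (N + 2 * s) = Q at hQ0
  have hQ1 : 0 < Q := by linarith
  rw [abs_div, abs_of_pos (by positivity : 0 < Q ^ 2), div_le_iff₀ (by positivity), abs_le]
  have c1 : P' * Q ≤ b / 2 * N * Q ^ 2 := by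
    calc P' * Q ≤ b * N ^ 3 * Q := by gcongr
      _ = b / 2 * N * (2 * N ^ 2 * Q) := by ring
      _ ≤ b / 2 * N * (Q * Q) := by gcongr
      _ = _ := by ring
  have c2 : P s * (4 * N) ≤ a * N * Q ^ 2 := by
    calc P s * (4 * N) ≤ a * N ^ 4 * (4 * N) := by gcongr
      _ = a * N * (2 * N ^ 2) ^ 2 := by ring
      _ ≤ a * N * Q ^ 2 := by gcongr
  have c3 : 0 ≤ P' * Q := by positivity
  have c4 : 0 ≤ P s * (4 * N) := by positivity
  have c5 : 0 ≤ b / 2 * N * Q ^ 2 := by positivity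
  have c6 : 0 ≤ a * N * Q ^ 2 := by positivity
  constructor <;> nlinarith

/-- An approximate primitive of the edge integrand. -/
noncomputable def H (τ N s : ℝ) : ℝ :=
  -(s ^ 2 / (8 * τ) + s ^ 2 * (sin (τ * log s) * cos (τ * log s)) / (4 * τ ^ 2))
    + (s ^ 2 * (N + s) ^ 2 / (2 * N * (N + 2 * s))
        * (cos (τ * log s) * cos (τ * log ((N + s) / 2)))
      + s * (N + s) ^ 3 / (2 * N * (N + 2 * s))
        * (sin (τ * log s) * sin (τ * log ((N + s) / 2)))) / τ ^ 2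

lemma H_deriv (τ N s : ℝ) (hτ : 1 ≤ τ) (hq : ∀ θ, sin (θ - τ * log 2) = cos θ) (hs : 0 < s)
    (hsN : s ≤ N) : ∃ D, HasDerivAt (H τ N) D s ∧
      (cos (τ * log s) + sin (τ * log s) / τ) * (W τ ((N + s) / 2) - W τ (s / 2))
        ≤ D + 29 * N / τ ^ 2 := by
  have hN : 0 < N := hs.trans_le hsN
  have hNs : N + s ≤ 2 * N := by linarith
  have hNs0 : 0 < N + s := by linarith
  have id' := hasDerivAt_id' s
  have hθ := th_deriv τ s hs
  have hφ : HasDerivAt (fun s => τ * log ((N + s) / 2)) (τ / (N + s)) s := by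
    refine ((((id'.const_add N).div_const 2).log (by positivity)).const_mul τ).congr_deriv ?_
    field_simp
  obtain ⟨A', hA1, hA⟩ := quot_deriv N s 4 12 (2 * s * (N + s) ^ 2 + 2 * s ^ 2 * (N + s))
    (fun s => s ^ 2 * (N + s) ^ 2) hN hs.le
    (((id'.fun_pow 2).fun_mul ((id'.const_add N).fun_pow 2)).congr_deriv (by norm_num; ring))
    (by positivity) (by
      calc s ^ 2 * (N + s) ^ 2 ≤ N ^ 2 * (2 * N) ^ 2 := by gcongr
        _ = 4 * N ^ 4 := by ring) (by positivity) (by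
      calc 2 * s * (N + s) ^ 2 + 2 * s ^ 2 * (N + s)
          ≤ 2 * N * (2 * N) ^ 2 + 2 * N ^ 2 * (2 * N) := by gcongr
        _ = 12 * N ^ 3 := by ring) (by norm_num) (by norm_num)
  obtain ⟨B', hB1, hB⟩ := quot_deriv N s 8 20 ((N + s) ^ 3 + 3 * s * (N + s) ^ 2)
    (fun s => s * (N + s) ^ 3) hN hs.le
    ((id'.fun_mul ((id'.const_add N).fun_pow 3)).congr_deriv (by norm_num; ring))
    (by positivity) (by
      calc s * (N + s) ^ 3 ≤ N * (2 * N) ^ 3 := by gcongr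
        _ = 8 * N ^ 4 := by ring) (by positivity) (by
      calc (N + s) ^ 3 + 3 * s * (N + s) ^ 2 ≤ (2 * N) ^ 3 + 3 * N * (2 * N) ^ 2 := by gcongr
        _ = 20 * N ^ 3 := by ring) (by norm_num) (by norm_num)
  have hH := (((id'.fun_pow 2).div_const (8 * τ)).fun_add
    (((id'.fun_pow 2).fun_mul (hθ.sin.fun_mul hθ.cos)).div_const (4 * τ ^ 2))).fun_neg.fun_add
    (((hA.fun_mul (hθ.cos.fun_mul hφ.cos)).fun_add
      (hB.fun_mul (hθ.sin.fun_mul hφ.sin))).div_const (τ ^ 2))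
  have hW : W τ (s / 2) = s / 2 * cos (τ * log s) / τ := by
    rw [W, log_div hs.ne' (by norm_num), mul_sub, hq]
  have hsc := sin_sq_add_cos_sq (τ * log s)
  refine ⟨(cos (τ * log s) + sin (τ * log s) / τ) * (W τ ((N + s) / 2) - W τ (s / 2))
    + (A' * (cos (τ * log s) * cos (τ * log ((N + s) / 2)))
      + B' * (sin (τ * log s) * sin (τ * log ((N + s) / 2)))
      - (N + s) / 2 * (sin (τ * log s) * sin (τ * log ((N + s) / 2)))) / τ ^ 2,
    hH.congr_deriv ?_, ?_⟩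
  · rw [hW, W]
    generalize sin (τ * log s) = S at hsc ⊢
    generalize cos (τ * log s) = C at hsc ⊢
    generalize sin (τ * log ((N + s) / 2)) = S'
    generalize cos (τ * log ((N + s) / 2)) = C'
    have hτ0 : τ ≠ 0 := by linarith
    have hQ : N + 2 * s ≠ 0 := by linarith
    have hS : S ^ 2 = 1 - C ^ 2 := by linarith
    norm_num
    field_simp
    ring_nf
    simp only [hS]
    ring
  · have b : ∀ x y K L : ℝ, |x| ≤ 1 → |y| ≤ 1 → |K| ≤ L → |K * (x * y)| ≤ L := by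
      intro x y K L hx hy hK
      rw [abs_mul, abs_mul]
      exact (mul_le_of_le_one_right (abs_nonneg _) (mul_le_one₀ hx (abs_nonneg _) hy)).trans hK
    have b1 := b _ _ _ _ (abs_cos_le_one (τ * log s)) (abs_cos_le_one (τ * log ((N + s) / 2))) hA1
    have b2 := b _ _ _ _ (abs_sin_le_one (τ * log s)) (abs_sin_le_one (τ * log ((N + s) / 2))) hB1
    have b3 := b _ _ ((N + s) / 2) N (abs_sin_le_one (τ * log s))
      (abs_sin_le_one (τ * log ((N + s) / 2))) (abs_le.2 ⟨by linarith, by linarith⟩)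
    rw [add_assoc, ← add_div, le_add_iff_nonneg_right]
    apply div_nonneg _ (by positivity)
    linarith [(abs_le.1 b1).1, (abs_le.1 b2).1, (abs_le.1 b3).2]

lemma H_abs (τ N s : ℝ) (hτ : 1 ≤ τ) (hs : 0 < s) (hsN : s ≤ N) :
    |H τ N s + s ^ 2 / (8 * τ)| ≤ (s ^ 2 / 4 + 6 * N * s) / τ ^ 2 := by
  have hN : 0 < N := hs.trans_le hsN
  have hNs : N + s ≤ 2 * N := by linarith
  have b : ∀ x y K L : ℝ, |x| ≤ 1 → |y| ≤ 1 → 0 ≤ K → K ≤ L → |K * (x * y)| ≤ L := by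
    intro x y K L hx hy hK0 hK
    rw [abs_mul, abs_mul, abs_of_nonneg hK0]
    exact (mul_le_of_le_one_right hK0 (mul_le_one₀ hx (abs_nonneg _) hy)).trans hK
  have hQ : 2 * N ^ 2 ≤ 2 * N * (N + 2 * s) := by nlinarith
  have b1 := b _ _ (s ^ 2 * (N + s) ^ 2 / (2 * N * (N + 2 * s))) (2 * N * s)
    (abs_cos_le_one (τ * log s)) (abs_cos_le_one (τ * log ((N + s) / 2))) (by positivity) (by
      rw [div_le_iff₀ (by positivity)]
      calc s ^ 2 * (N + s) ^ 2 = s * s * (N + s) ^ 2 := by ring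
        _ ≤ N * s * (2 * N) ^ 2 := by gcongr
        _ = 2 * N * s * (2 * N ^ 2) := by ring
        _ ≤ _ := by gcongr)
  have b2 := b _ _ (s * (N + s) ^ 3 / (2 * N * (N + 2 * s))) (4 * N * s)
    (abs_sin_le_one (τ * log s)) (abs_sin_le_one (τ * log ((N + s) / 2))) (by positivity) (by
      rw [div_le_iff₀ (by positivity)]
      calc s * (N + s) ^ 3 ≤ s * (2 * N) ^ 3 := by gcongr
        _ = 4 * N * s * (2 * N ^ 2) := by ring
        _ ≤ _ := by gcongr)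
  have b3 := b _ _ (s ^ 2 / 4) (s ^ 2 / 4) (abs_sin_le_one (τ * log s))
    (abs_cos_le_one (τ * log s)) (by positivity) le_rfl
  have hτ0 : τ ≠ 0 := by linarith
  have e : H τ N s + s ^ 2 / (8 * τ) = (s ^ 2 * (N + s) ^ 2 / (2 * N * (N + 2 * s))
        * (cos (τ * log s) * cos (τ * log ((N + s) / 2)))
      + s * (N + s) ^ 3 / (2 * N * (N + 2 * s))
        * (sin (τ * log s) * sin (τ * log ((N + s) / 2)))
      - s ^ 2 / 4 * (sin (τ * log s) * cos (τ * log s))) / τ ^ 2 := by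
    rw [H]
    ring
  rw [e, abs_div, abs_of_pos (by positivity : 0 < τ ^ 2)]
  apply div_le_div_of_nonneg_right _ (by positivity)
  rw [abs_le] at *
  constructor <;> linarith [b1.1, b1.2, b2.1, b2.2, b3.1, b3.2]

lemma edge_step (τ : ℝ) (hτ : 1 ≤ τ) (hq : ∀ θ, sin (θ - τ * log 2) = cos θ) (n x : ℕ)
    (hx : 1 ≤ x) (hxn : x + 1 ≤ n) :
    uu τ (x + 1) * (W τ ((n + x + 1) / 2 : ℕ) - W τ ((x + 1) / 2 : ℕ))
      ≤ H τ n (x + 1 : ℕ) - H τ n x + (29 * n / τ ^ 2 + 8) := by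
  obtain ⟨g, hg⟩ : ∃ g, g = W τ ((n + x + 1) / 2 : ℕ) - W τ ((x + 1) / 2 : ℕ) := ⟨_, rfl⟩
  have hx' : (1 : ℝ) ≤ x := by exact_mod_cast hx
  have hxn' : (x : ℝ) + 1 ≤ n := by exact_mod_cast hxn
  have h := mono_step (fun s => H τ n s + (29 * n / τ ^ 2 + 8) * s - W τ s * g) x (x + 1)
    (by linarith) fun s hs => by
      have hs0 : 0 < s := by linarith [hs.1]
      obtain ⟨D, hD, hle⟩ := H_deriv τ n s hτ hq hs0 (by linarith [hs.2])
      refine ⟨_, ?_, (hD.fun_add ((hasDerivAt_id' s).const_mul _)).fun_sub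
        ((W_deriv τ s hτ hs0).mul_const g)⟩
      have a1 : 2 * (((n + x + 1) / 2 : ℕ) : ℝ) ≤ n + x + 1 := by exact_mod_cast (by omega)
      have a2 : (n : ℝ) + x ≤ 2 * (((n + x + 1) / 2 : ℕ) : ℝ) := by exact_mod_cast (by omega)
      have a3 : 2 * (((x + 1) / 2 : ℕ) : ℝ) ≤ x + 1 := by exact_mod_cast (by omega)
      have a4 : (x : ℝ) ≤ 2 * (((x + 1) / 2 : ℕ) : ℝ) := by exact_mod_cast (by omega)
      have a5 := W_lip τ ((n + s) / 2) (((n + x + 1) / 2 : ℕ) : ℝ) hτ (by positivity)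
        (by positivity)
      have a6 := W_lip τ (s / 2) (((x + 1) / 2 : ℕ) : ℝ) hτ (by positivity) (by positivity)
      have a7 : |(((n + x + 1) / 2 : ℕ) : ℝ) - (n + s) / 2| ≤ 1 :=
        abs_le.2 ⟨by linarith [hs.1, hs.2], by linarith [hs.1, hs.2]⟩
      have a8 : |(((x + 1) / 2 : ℕ) : ℝ) - s / 2| ≤ 1 :=
        abs_le.2 ⟨by linarith [hs.1, hs.2], by linarith [hs.1, hs.2]⟩
      have a9 : |g - (W τ ((n + s) / 2) - W τ (s / 2))| ≤ 4 := by
        rw [hg, abs_le]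
        constructor <;>
          linarith [(abs_le.1 a5).1, (abs_le.1 a5).2, (abs_le.1 a6).1, (abs_le.1 a6).2]
      have a10 : |(cos (τ * log s) + sin (τ * log s) / τ)
          * (g - (W τ ((n + s) / 2) - W τ (s / 2)))| ≤ 2 * 4 := by
        rw [abs_mul]
        exact mul_le_mul (W'_le τ _ hτ) a9 (abs_nonneg _) (by norm_num)
      linarith [(abs_le.1 a10).2]
  rw [← hg, uu]
  push_cast
  rw [add_sub_cancel_right]
  linarith

theorem edge_neg (τ : ℝ) (hτ : 576 ≤ τ) (hq : ∀ θ, sin (θ - τ * log 2) = cos θ) (n : ℕ) :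
    W τ n ^ 2 / 4 + edge (uu τ) n ≤ -(1 / (16 * τ)) * (n : ℝ) ^ 2 + 17 * n := by
  have hτ1 : 1 ≤ τ := by linarith
  rcases Nat.eq_zero_or_pos n with rfl | hn
  · simp [W, edge]
  obtain ⟨m, rfl⟩ : ∃ m, n = m + 1 := ⟨n - 1, by omega⟩
  obtain ⟨N, hN⟩ : ∃ N : ℝ, N = ((m + 1 : ℕ) : ℝ) := ⟨_, rfl⟩
  have hN1 : 1 ≤ N := by rw [hN]; exact_mod_cast hn
  have hmN : (m : ℝ) ≤ N := by rw [hN]; exact_mod_cast Nat.le_succ m
  simp only [edge, ps_uu]
  rw [sum_range_succ']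
  have h1 : ∑ x ∈ range m, uu τ (x + 1 + 1)
      * (W τ ((m + 1 + (x + 1) + 1) / 2 : ℕ) - W τ ((x + 1 + 1) / 2 : ℕ))
      ≤ H τ N N - H τ N 1 + m * (29 * N / τ ^ 2 + 8) := by
    refine (Finset.sum_le_sum fun x hx => edge_step τ hτ1 hq (m + 1) (x + 1) (by omega)
      (by have := mem_range.1 hx; omega)).trans (le_of_eq ?_)
    rw [Finset.sum_add_distrib, Finset.sum_range_sub (fun x => H τ (m + 1 : ℕ) (x + 1 : ℕ)), hN,
      sum_const, card_range, nsmul_eq_mul]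
    simp
  have h2 : uu τ (0 + 1) * (W τ ((m + 1 + 0 + 1) / 2 : ℕ) - W τ ((0 + 1) / 2 : ℕ)) ≤ 0 := by
    simp [uu, W]
  have h3 := (abs_le.1 (H_abs τ N N hτ1 (by linarith) le_rfl)).2
  have h4 := (abs_le.1 (H_abs τ N 1 hτ1 (by linarith) hN1)).1
  have h5 : W τ N ^ 2 ≤ (N / τ) ^ 2 :=
    sq_le_sq' (abs_le.1 (abs_W_le τ N hτ1 (by linarith))).1
      (abs_le.1 (abs_W_le τ N hτ1 (by linarith))).2
  rw [← hN]
  have h6 : (m : ℝ) * (29 * N / τ ^ 2 + 8) ≤ N * (29 * N / τ ^ 2 + 8) := by gcongr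
  have h7 : (1 ^ 2 / 4 + 6 * N * 1) / τ ^ 2 ≤ 1 ^ 2 / 4 + 6 * N * 1 :=
    div_le_self (by positivity) (one_le_pow₀ hτ1)
  have h8 : 1 ^ 2 / (8 * τ) ≤ 1 ^ 2 := div_le_self (by positivity) (by linarith)
  obtain ⟨y, hy⟩ : ∃ y, y = N ^ 2 / τ ^ 2 := ⟨_, rfl⟩
  have hτ0 : τ ≠ 0 := by linarith
  have e1 : (N / τ) ^ 2 = y := by rw [hy]; ring
  have e2 : (N ^ 2 / 4 + 6 * N * N) / τ ^ 2 = 25 / 4 * y := by rw [hy]; ring
  have e3 : N * (29 * N / τ ^ 2 + 8) = 29 * y + 8 * N := by rw [hy]; ring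
  have e4 : N ^ 2 / (8 * τ) = τ * y / 8 := by rw [hy]; field_simp
  have e5 : -(1 / (16 * τ)) * N ^ 2 = -(τ * y / 16) := by rw [hy]; field_simp
  have hy0 : 0 ≤ y := by rw [hy]; positivity
  have h9 := mul_le_mul_of_nonneg_right hτ hy0
  rw [e5]
  linarith

lemma exists_tau : ∃ τ : ℝ, 576 ≤ τ ∧ ∀ θ, sin (θ - τ * log 2) = cos θ := by
  have h2 : 0 < log 2 := log_pos (by norm_num)
  have h3 : log 2 ≤ 1 := by linarith [log_le_sub_one_of_pos (by norm_num : (0 : ℝ) < 2)]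
  refine ⟨((100 : ℕ) * (2 * π) - π / 2) / log 2, ?_, fun θ => ?_⟩
  · rw [le_div_iff₀ h2]
    push_cast
    linarith [pi_gt_three]
  · rw [div_mul_cancel₀ _ h2.ne']
    have : θ - ((100 : ℕ) * (2 * π) - π / 2) = θ + π / 2 - (100 : ℕ) * (2 * π) := by ring
    rw [this, sin_sub_nat_mul_two_pi, sin_add_pi_div_two]

end Pool.Agent.MP_6bff71_co.OC
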