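import Pool.Agent.MP_6bff71_co.OC.Round
import Pool.Agent.MP_6bff71_co.OC.Char

/-!
Periodic colourings below the random rate: quadratic phases for `k ≥ 4`, linear phases for
`k = 3` and `r ≥ 3`.
-/

open Finset

namespace Pool.Agent.MP_6bff71_co.OC

lemma expand_weights (k r p : ℕ) [NeZero p] (s : Fin r → ℝ) (f : ZMod p → ℝ) (ε : ℝ) :
    ∑ d : ZMod p, ∑ a : ZMod p, ∑ col, ∏ i ∈ range k,
        (1 / (r : ℝ)) * (1 + ε * s col * f (a + (i : ℕ) * d))
      = (1 / (r : ℝ)) ^ k * ∑ S ∈ (range k).powerset, ε ^ S.card * (∑ col, s col ^ S.card)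
        * ∑ d : ZMod p, ∑ a : ZMod p, ∏ i ∈ S, f (a + (i : ℕ) * d) := by
  simp only [Finset.prod_mul_distrib, Finset.prod_const, card_range, Finset.prod_one_add,
    ← Finset.mul_sum]
  refine congrArg _ ?_
  simp only [Finset.mul_sum, Finset.sum_mul]
  symm
  rw [Finset.sum_comm]
  apply Finset.sum_congr rfl
  intro d _
  rw [Finset.sum_comm]
  apply Finset.sum_congr rfl
  intro a _
  rw [Finset.sum_comm]

lemma finish (k r : ℕ) (hk : 2 ≤ k) (hr : 0 < r) (s : Fin r → ℝ) (hs : ∀ col, |s col| ≤ 1)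
    (hs0 : ∑ col, s col = 0) (ε γ K : ℝ) (hε : |ε| ≤ 1) (hγ : 0 < γ)
    (h : ∀ (p : ℕ) [Fact p.Prime], 12 * k ^ 2 < p → ∃ f : ZMod p → ℝ, (∀ x, |f x| ≤ 1) ∧
      ∑ S ∈ (range k).powerset, ε ^ S.card * (∑ col, s col ^ S.card)
        * ∑ d : ZMod p, ∑ a : ZMod p, ∏ i ∈ S, f (a + (i : ℕ) * d)
      ≤ r * (p : ℝ) ^ 2 - γ * (p : ℝ) ^ 2 + K * (p * √p)) :
    ∃ χ : ℕ → Fin r, Bts k χ ∧ ∃ m, 0 < m ∧ Function.Periodic χ m := by
  have hr' : (0 : ℝ) < r := by exact_mod_cast hr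
  obtain ⟨p, hp1, hp⟩ := Nat.exists_infinite_primes
    (max (12 * k ^ 2 + 1) (⌈((K + (r : ℝ) ^ k) / γ) ^ 2⌉₊ + 1))
  have : Fact p.Prime := ⟨hp⟩
  have h1 : 12 * k ^ 2 < p := lt_of_lt_of_le (Nat.lt_succ_self _) ((le_max_left _ _).trans hp1)
  have h2 : ((K + (r : ℝ) ^ k) / γ) ^ 2 < p := by
    have a1 : ⌈((K + (r : ℝ) ^ k) / γ) ^ 2⌉₊ + 1 ≤ p := (le_max_right _ _).trans hp1
    have a2 : ((⌈((K + (r : ℝ) ^ k) / γ) ^ 2⌉₊ + 1 : ℕ) : ℝ) ≤ p := by exact_mod_cast a1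
    have a3 := Nat.le_ceil (((K + (r : ℝ) ^ k) / γ) ^ 2)
    push_cast at a2
    linarith
  have h3 : (K + (r : ℝ) ^ k) / γ < √p := Real.lt_sqrt_of_sq_lt h2
  rw [div_lt_iff₀ hγ] at h3
  have hp1' : (1 : ℝ) ≤ p := by exact_mod_cast hp.one_le
  have hs1 : (1 : ℝ) ≤ √p := Real.one_le_sqrt.2 hp1'
  have hss : √(p : ℝ) * √p = p := Real.mul_self_sqrt (by linarith)
  obtain ⟨f, hf, hb⟩ := h p h1
  obtain ⟨χ, h4, h5⟩ := periodic_of_weights k r p hk hr (by nlinarith)
    (fun z col => (1 / (r : ℝ)) * (1 + ε * s col * f z)) (fun z col => by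
      have a1 : |ε * s col * f z| ≤ 1 := by
        rw [abs_mul, abs_mul]
        exact mul_le_one₀ (mul_le_one₀ hε (abs_nonneg _) (hs col)) (abs_nonneg _) (hf z)
      have a2 : 0 ≤ 1 + ε * s col * f z := by linarith [(abs_le.1 a1).1]
      positivity) (fun z => by
      rw [← Finset.mul_sum, Finset.sum_add_distrib, ← Finset.sum_mul, ← Finset.mul_sum, hs0]
      simp [hr'.ne']) (by
      rw [expand_weights]
      have a1 : (0 : ℝ) < (1 / (r : ℝ)) ^ k := by positivity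
      have a2 : (p : ℝ) ^ 2 / (r : ℝ) ^ (k - 1) = (1 / (r : ℝ)) ^ k * (r * (p : ℝ) ^ 2) := by
        obtain ⟨k, rfl⟩ := Nat.exists_eq_add_of_le' (show 1 ≤ k by omega)
        simp only [add_tsub_cancel_right, one_div_pow, pow_succ (r : ℝ) k]
        field_simp
      have a3 : (p : ℝ) = (1 / (r : ℝ)) ^ k * ((r : ℝ) ^ k * p) := by
        rw [one_div_pow]
        field_simp
      have a4 : K * (p * √p) + (r : ℝ) ^ k * p < γ * (p : ℝ) ^ 2 := by
        have b1 : (K + (r : ℝ) ^ k) * (p * √p) < √p * γ * (p * √p) :=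
          mul_lt_mul_of_pos_right h3 (by positivity)
        have b2 : √(p : ℝ) * γ * (p * √p) = γ * (p : ℝ) ^ 2 := by
          calc √(p : ℝ) * γ * (p * √p) = γ * p * (√(p : ℝ) * √p) := by ring
            _ = γ * (p : ℝ) ^ 2 := by rw [hss]; ring
        have b3 : (r : ℝ) ^ k * p * 1 ≤ (r : ℝ) ^ k * p * √p :=
          mul_le_mul_of_nonneg_left hs1 (by positivity)
        nlinarith
      rw [a2]
      have a5 := mul_le_mul_of_nonneg_left hb a1.le
      have a6 := mul_lt_mul_of_pos_left a4 a1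
      nlinarith)
  exact ⟨χ, h4, p, hp.pos, h5⟩

lemma prod_ord (S : Finset ℕ) {n : ℕ} (h : S.card = n) (g : ℕ → ℝ) :
    ∏ i ∈ S, g i = ∏ t : Fin n, g (S.orderEmbOfFin h t) := by
  conv_lhs => rw [← Finset.map_orderEmbOfFin_univ S h]
  rw [Finset.prod_map]
  rfl

lemma two_ne {p k : ℕ} [Fact p.Prime] (hk : 1 ≤ k) (hp : 12 * k ^ 2 < p) : (2 : ZMod p) ≠ 0 := by
  intro h
  have h1 : ((2 : ℕ) : ZMod p) = 0 := by exact_mod_cast h
  rw [ZMod.natCast_eq_zero_iff] at h1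
  have := Nat.le_of_dvd (by norm_num) h1
  nlinarith

lemma pattern (x y z m0 m1 m2 m3 : ℤ) (hx : 0 < x) (hy : 0 < y) (hz : 0 < z)
    (h0 : m0 = 1 ∨ m0 = 3 ∨ m0 = -1 ∨ m0 = -3) (h1 : m1 = 1 ∨ m1 = 3 ∨ m1 = -1 ∨ m1 = -3)
    (h2 : m2 = 1 ∨ m2 = 3 ∨ m2 = -1 ∨ m2 = -3) (h3 : m3 = 1 ∨ m3 = 3 ∨ m3 = -1 ∨ m3 = -3)
    (a : m0 * ((x + y) * (x + y + z)) + m1 * (y * (y + z)) = 0)
    (b : m2 * ((x + y) * y) + m3 * ((x + y + z) * (y + z)) = 0)
    (c : m0 * (x * (x + y)) + m3 * ((y + z) * z) = 0) :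
    x = y ∧ y = z ∧ ((m0 = 1 ∧ m1 = -3 ∧ m2 = 3 ∧ m3 = -1) ∨
      (m0 = -1 ∧ m1 = 3 ∧ m2 = -3 ∧ m3 = 1)) := by
  have p1 : 0 < y * (y + z) := by positivity
  have p2 : y * (y + z) < (x + y) * (x + y + z) := by nlinarith
  have p3 : 0 < (x + y) * y := by positivity
  have p4 : (x + y) * y < (x + y + z) * (y + z) := by nlinarith
  have p5 : 0 < x * (x + y) := by positivity
  have p6 : 0 < (y + z) * z := by positivity
  have q1 : (m0 = 1 ∧ m1 = -3) ∨ (m0 = -1 ∧ m1 = 3) := by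
    rcases h0 with rfl | rfl | rfl | rfl <;> rcases h1 with rfl | rfl | rfl | rfl <;> omega
  have q2 : (m2 = 3 ∧ m3 = -1) ∨ (m2 = -3 ∧ m3 = 1) := by
    rcases h2 with rfl | rfl | rfl | rfl <;> rcases h3 with rfl | rfl | rfl | rfl <;> omega
  have q3 : (m0 = 1 ∧ m1 = -3 ∧ m2 = 3 ∧ m3 = -1) ∨ (m0 = -1 ∧ m1 = 3 ∧ m2 = -3 ∧ m3 = 1) := by
    rcases q1 with ⟨rfl, rfl⟩ | ⟨rfl, rfl⟩ <;> rcases q2 with ⟨rfl, rfl⟩ | ⟨rfl, rfl⟩ <;> omega
  have q4 : (x - z) * (x + y + z) = 0 := by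
    rcases q3 with ⟨rfl, rfl, rfl, rfl⟩ | ⟨rfl, rfl, rfl, rfl⟩ <;> linarith
  have q5 : x = z := by
    rcases mul_eq_zero.1 q4 with h | h <;> omega
  subst q5
  have q6 : (x - y) * (x + y) = 0 := by
    rcases q3 with ⟨rfl, rfl, rfl, rfl⟩ | ⟨rfl, rfl, rfl, rfl⟩ <;> linarith
  have q7 : x = y := by
    rcases mul_eq_zero.1 q6 with h | h <;> omega
  exact ⟨q7, q7.symm, q3⟩

/-- Signs, linear and quadratic frequencies of the eight phases. -/
def sw : Fin 8 → ℤ := ![1, 1, 1, -1, 1, 1, 1, -1]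
def su : Fin 8 → ℤ := ![0, 1, 1, 2, 0, -1, -1, -2]
def sm : Fin 8 → ℤ := ![1, 1, 3, 3, -1, -1, -3, -3]

lemma sm_cases : ∀ j, sm j = 1 ∨ sm j = 3 ∨ sm j = -1 ∨ sm j = -3 := by decide

lemma sign_neg : ∀ j0 j1 j2 j3 : Fin 8,
    ((sm j0 = 1 ∧ sm j1 = -3 ∧ sm j2 = 3 ∧ sm j3 = -1) ∨
      (sm j0 = -1 ∧ sm j1 = 3 ∧ sm j2 = -3 ∧ sm j3 = 1)) →
    su j0 + su j1 + su j2 + su j3 = 0 → su j1 + 2 * su j2 + 3 * su j3 = 0 →
    sw j0 * sw j1 * sw j2 * sw j3 = -1 := by decide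

lemma sol_four (e : Fin 4 → ℕ) (he : StrictMono e) (j : Fin 4 → Fin 8) (h : Sol su sm e j) :
    ∏ t, ((sw (j t) : ℝ) / 8) = -1 / 4096 := by
  obtain ⟨h1, h2, h3, h4, h5⟩ := h
  simp only [Fin.sum_univ_four] at h1 h2 h3 h4 h5
  have l1 : (e 0 : ℤ) < e 1 := by exact_mod_cast he (by decide : (0 : Fin 4) < 1)
  have l2 : (e 1 : ℤ) < e 2 := by exact_mod_cast he (by decide : (1 : Fin 4) < 2)
  have l3 : (e 2 : ℤ) < e 3 := by exact_mod_cast he (by decide : (2 : Fin 4) < 3)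
  obtain ⟨q1, q2, q3⟩ := pattern ((e 1 : ℤ) - e 0) ((e 2 : ℤ) - e 1) ((e 3 : ℤ) - e 2)
    (sm (j 0)) (sm (j 1)) (sm (j 2)) (sm (j 3)) (by omega) (by omega) (by omega)
    (sm_cases _) (sm_cases _) (sm_cases _) (sm_cases _)
    (by linear_combination h3 - ((e 2 : ℤ) + e 3) * h2 + (e 2 : ℤ) * e 3 * h1)
    (by linear_combination h3 - ((e 0 : ℤ) + e 1) * h2 + (e 0 : ℤ) * e 1 * h1)
    (by linear_combination h3 - ((e 1 : ℤ) + e 2) * h2 + (e 1 : ℤ) * e 2 * h1)
  have q4 : ((e 1 : ℤ) - e 0) * (su (j 1) + 2 * su (j 2) + 3 * su (j 3)) = 0 := by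
    linear_combination h5 - (e 0 : ℤ) * h4 + (su (j 2) + 2 * su (j 3)) * q1 + su (j 3) * q2
  have q5 := sign_neg _ _ _ _ q3 h4 ((mul_eq_zero.1 q4).resolve_left (by omega))
  have q6 : (sw (j 0) : ℝ) * sw (j 1) * sw (j 2) * sw (j 3) = -1 := by exact_mod_cast q5
  rw [Fin.prod_univ_four]
  linear_combination q6 / 4096

lemma sol_two (e : Fin 2 → ℕ) (he : StrictMono e) (j : Fin 2 → Fin 8) : ¬ Sol su sm e j := by
  rintro ⟨h1, h2, -⟩
  simp only [Fin.sum_univ_two] at h1 h2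
  have l1 : (e 0 : ℤ) < e 1 := by exact_mod_cast he (by decide : (0 : Fin 2) < 1)
  have q : sm (j 1) * ((e 1 : ℤ) - e 0) = 0 := by linear_combination h2 - (e 0 : ℤ) * h1
  have := sm_cases (j 1)
  rcases mul_eq_zero.1 q with h | h <;> omega

lemma real_phase {p : ℕ} [Fact p.Prime] (ψ : AddChar (ZMod p) ℂ) {J : Type} [Fintype J]
    (w : J → ℝ) (u m : J → ℤ) (σ : J ≃ J) (hw : ∀ j, w (σ j) = w j) (hu : ∀ j, u (σ j) = -u j)
    (hm : ∀ j, m (σ j) = -m j) (hW : ∑ j, |w j| ≤ 1) :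
    ∃ f : ZMod p → ℝ, (∀ x, |f x| ≤ 1) ∧
      ∀ x, (f x : ℂ) = ∑ j, (w j : ℂ) * ψ (u j * x + m j * x ^ 2) := by
  refine ⟨fun x => (∑ j, (w j : ℂ) * ψ (u j * x + m j * x ^ 2)).re, fun x => ?_, fun x => ?_⟩
  · refine (Complex.abs_re_le_norm _).trans ((norm_sum_le _ _).trans ?_)
    simpa using hW
  · rw [← Complex.conj_eq_iff_re, map_sum, ← Equiv.sum_comp σ]
    apply Finset.sum_congr rfl
    intro j _
    rw [map_mul, Complex.conj_ofReal, ← AddChar.map_neg_eq_conj, hw, hu, hm]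
    refine congrArg (fun z => (w j : ℂ) * ψ z) ?_
    push_cast
    ring

lemma corr_abs {p : ℕ} [NeZero p] (f : ZMod p → ℝ) (hf : ∀ x, |f x| ≤ 1) (S : Finset ℕ) :
    |∑ d : ZMod p, ∑ a : ZMod p, ∏ i ∈ S, f (a + (i : ℕ) * d)| ≤ (p : ℝ) ^ 2 := by
  refine (Finset.abs_sum_le_sum_abs _ _).trans ?_
  refine (Finset.sum_le_sum (g := fun _ => (p : ℝ)) fun d _ => ?_).trans ?_
  · refine (Finset.abs_sum_le_sum_abs _ _).trans ?_
    refine (Finset.sum_le_sum (g := fun _ => (1 : ℝ)) fun a _ => ?_).trans ?_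
    · rw [Finset.abs_prod]
      exact Finset.prod_le_one (fun _ _ => abs_nonneg _) (fun t _ => hf _)
    · simp [ZMod.card]
  · simp [ZMod.card, sq]

lemma sum_sgn_pow {r : ℕ} (hr : 2 ≤ r) (j : ℕ) (hj : j ≠ 0) :
    ∑ col : Fin r, sgn col ^ j = 1 + (-1) ^ j := by
  obtain ⟨r, rfl⟩ := Nat.exists_eq_add_of_le' hr
  simp [Fin.sum_univ_succ, sgn, hj]

lemma sum_two_ite (k : ℕ) (S₀ : Finset ℕ) (h : S₀ ⊆ range k) (A B C : ℝ) :
    ∑ S ∈ (range k).powerset, ((if S = ∅ then A else 0) + (if S = S₀ then B else 0) + C)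
      = A + B + 2 ^ k * C := by
  rw [Finset.sum_add_distrib, Finset.sum_add_distrib, Finset.sum_ite_eq', Finset.sum_ite_eq',
    if_pos (empty_mem_powerset _), if_pos (mem_powerset.2 h)]
  simp

theorem periodic_four (k r : ℕ) (hk : 4 ≤ k) (hr : 2 ≤ r) :
    ∃ χ : ℕ → Fin r, Bts k χ ∧ ∃ m, 0 < m ∧ Function.Periodic χ m := by
  classical
  obtain ⟨ε, hε⟩ : ∃ ε : ℝ, ε = 1 / (8192 * 2 ^ k) := ⟨_, rfl⟩
  have h2k : (1 : ℝ) ≤ 2 ^ k := one_le_pow₀ (by norm_num)
  have hε0 : 0 < ε := by rw [hε]; positivity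
  have hε1 : ε ≤ 1 := by
    rw [hε, div_le_one (by positivity)]
    linarith
  have hεk : 2 ^ k * ε = 1 / 8192 := by rw [hε]; field_simp
  refine finish k r (by omega) (by omega) sgn abs_sgn_le (sum_sgn hr) ε (ε ^ 4 / 4096)
    (2 ^ k * 8192) (by rwa [abs_of_pos hε0]) (by positivity) fun p _ hp => ?_
  have hψ := ZMod.isPrimitive_stdAddChar p
  have h2 : (2 : ZMod p) ≠ 0 := two_ne (by omega) hp
  obtain ⟨f, hf1, hf⟩ := real_phase (ZMod.stdAddChar (N := p)) (fun j => (sw j : ℝ) / 8) su sm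
    (Equiv.addRight 4) (fun j => by
      have : ∀ j : Fin 8, sw (Equiv.addRight 4 j) = sw j := by decide
      rw [this]) (by decide) (by decide) (by
      simp [Fin.sum_univ_eight, sw, abs_div]
      norm_num)
  refine ⟨f, hf1, ?_⟩
  have hw : ∀ j, |(sw j : ℝ) / 8| ≤ 1 := by
    intro j
    have h1 : ∀ j, |sw j| ≤ 1 := by decide
    have h3 : |(sw j : ℝ)| ≤ 1 := by exact_mod_cast h1 j
    rw [abs_div, abs_of_pos (by norm_num : (0 : ℝ) < 8)]
    linarith
  have hc := fun (n : ℕ) (hn : 3 * n * k ^ 2 < p) (e : Fin n → ℕ) (he : ∀ t, e t ≤ k) =>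
    corr_le hψ h2 (fun j => (sw j : ℝ) / 8) su sm hw (by decide) (by decide) f hf
      (by omega : 1 ≤ k) hn e he
  have hP : (0 : ℝ) ≤ p * √p := by positivity
  have hP2 : (0 : ℝ) ≤ (p : ℝ) ^ 2 := by positivity
  have hN : ∀ e : Fin 4 → ℕ, StrictMono e → ∀ j : Fin 4 → Fin 8,
      (if Sol su sm e j then ∏ t, ((sw (j t) : ℝ) / 8) else 0) ≤ 0 := by
    intro e he j
    split_ifs with h
    · rw [sol_four e he j h]
      norm_num
    · exact le_rfl
  have key : ∀ S ∈ (range k).powerset, ε ^ S.card * (∑ col : Fin r, sgn col ^ S.card)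
      * ∑ d : ZMod p, ∑ a : ZMod p, ∏ i ∈ S, f (a + (i : ℕ) * d)
      ≤ (if S = ∅ then r * (p : ℝ) ^ 2 else 0)
        + (if S = range 4 then -(ε ^ 4 / 2048 * (p : ℝ) ^ 2) else 0)
        + (8192 * (p * √p) + 2 * ε ^ 5 * (p : ℝ) ^ 2) := by
    intro S hS
    have hE : 0 ≤ 2 * ε ^ 5 * (p : ℝ) ^ 2 := by positivity
    have hord : ∀ {n : ℕ} (h : S.card = n) t, S.orderEmbOfFin h t ≤ k := fun h t =>
      (mem_range.1 (mem_powerset.1 hS (S.orderEmbOfFin_mem h t))).le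
    by_cases h0 : S = ∅
    · subst h0
      rw [if_pos rfl, if_neg (by decide)]
      simp only [card_empty, pow_zero, sum_const, card_univ, Fintype.card_fin, nsmul_eq_mul,
        mul_one, one_mul, prod_empty, ZMod.card]
      nlinarith
    rw [if_neg h0, zero_add, sum_sgn_pow hr _ (by simpa using h0)]
    by_cases h4 : S = range 4
    · subst h4
      rw [if_pos rfl, card_range]
      simp only [Finset.prod_range]
      have a1 := hc 4 (by omega) (fun t => t.val) (fun t => by omega)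
      have a2 : ∑ j : Fin 4 → Fin 8, (if Sol su sm (fun t : Fin 4 => t.val) j then
          ∏ t, ((sw (j t) : ℝ) / 8) else 0) ≤ -1 / 4096 := by
        have b1 : Sol su sm (fun t : Fin 4 => t.val) ![1, 7, 2, 4] := by
          unfold Sol
          decide
        have b2 := Finset.single_le_sum (s := univ) (f := fun j : Fin 4 → Fin 8 =>
          -(if Sol su sm (fun t : Fin 4 => t.val) j then ∏ t, ((sw (j t) : ℝ) / 8) else 0))
          (fun j _ => neg_nonneg.2 (hN _ Fin.val_strictMono j)) (mem_univ ![1, 7, 2, 4])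
        rw [Finset.sum_neg_distrib, if_pos b1, sol_four _ Fin.val_strictMono _ b1] at b2
        linarith
      have a3 := mul_le_mul_of_nonneg_left a2 hP2
      have a4 : ε ^ 4 ≤ 1 := pow_le_one₀ hε0.le hε1
      have a5 : (0 : ℝ) < ε ^ 4 := by positivity
      simp only [Fintype.card_fin] at a1
      have a6 := mul_le_mul_of_nonneg_left (a1.trans (add_le_add a3 le_rfl)) a5.le
      have a7 := mul_le_mul_of_nonneg_right a4 hP
      norm_num at a6 ⊢
      nlinarith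
    rw [if_neg h4, zero_add]
    have hodd : Odd S.card → ε ^ S.card * (1 + (-1) ^ S.card)
        * ∑ d : ZMod p, ∑ a : ZMod p, ∏ i ∈ S, f (a + (i : ℕ) * d)
        ≤ 8192 * (p * √p) + 2 * ε ^ 5 * (p : ℝ) ^ 2 := by
      intro h
      rw [h.neg_one_pow]
      simp only [add_neg_cancel, mul_zero, zero_mul]
      positivity
    have hsmall : ∀ n : ℕ, S.card = n → Even n →
        ∑ d : ZMod p, ∑ a : ZMod p, ∏ i ∈ S, f (a + (i : ℕ) * d) ≤ 4096 * (p * √p) →
        ε ^ S.card * (1 + (-1) ^ S.card)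
        * ∑ d : ZMod p, ∑ a : ZMod p, ∏ i ∈ S, f (a + (i : ℕ) * d)
        ≤ 8192 * (p * √p) + 2 * ε ^ 5 * (p : ℝ) ^ 2 := by
      intro n hn he hb
      rw [hn, he.neg_one_pow]
      have a4 : ε ^ n ≤ 1 := pow_le_one₀ hε0.le hε1
      have a5 : (0 : ℝ) < ε ^ n := by positivity
      have a6 := mul_le_mul_of_nonneg_left hb a5.le
      have a7 := mul_le_mul_of_nonneg_right a4 hP
      nlinarith
    have hS0 : S.card ≠ 0 := by simpa using h0
    rcases (by omega : S.card = 1 ∨ S.card = 2 ∨ S.card = 3 ∨ S.card = 4 ∨ 5 ≤ S.card) with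
      h | h | h | h | h
    · exact hodd (by rw [h]; decide)
    · refine hsmall 2 h (by decide) ?_
      have a1 := hc 2 (by omega) _ (hord h)
      simp only [sol_two _ (S.orderEmbOfFin h).strictMono, if_false, sum_const_zero, mul_zero,
        zero_add, Fintype.card_fin] at a1
      simp only [prod_ord S h]
      refine a1.trans (mul_le_mul_of_nonneg_right (by norm_num) hP)
    · exact hodd (by rw [h]; decide)
    · refine hsmall 4 h (by decide) ?_
      have a1 := hc 4 (by omega) _ (hord h)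
      have a2 := mul_nonpos_of_nonneg_of_nonpos hP2 (Finset.sum_nonpos (s := univ)
        fun j _ => hN _ (S.orderEmbOfFin h).strictMono j)
      simp only [Fintype.card_fin] at a1
      simp only [prod_ord S h]
      norm_num at a1 a2
      linarith
    · have a1 := corr_abs f hf1 S
      have a2 : ε ^ S.card ≤ ε ^ 5 := pow_le_pow_of_le_one hε0.le hε1 h
      have a3 : |(1 : ℝ) + (-1) ^ S.card| ≤ 2 := by
        refine (abs_add_le _ _).trans ?_
        rw [abs_pow]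
        norm_num
      refine (le_abs_self _).trans ?_
      rw [abs_mul, abs_mul, abs_of_pos (by positivity : 0 < ε ^ S.card)]
      have a4 := mul_le_mul (mul_le_mul a2 a3 (abs_nonneg _) (by positivity)) a1 (abs_nonneg _)
        (by positivity)
      nlinarith
  refine (Finset.sum_le_sum key).trans (le_of_eq ?_)
  rw [sum_two_ite k _ (range_subset_range.2 hk)]
  linear_combination (2 * ε ^ 4 * (p : ℝ) ^ 2) * hεk

/-- Weights `1, -1/2, -1/2, 0, …, 0` attached to the colours. -/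
noncomputable def tri {r : ℕ} (col : Fin r) : ℝ :=
  if (col : ℕ) = 0 then 1 else if (col : ℕ) ≤ 2 then -1 / 2 else 0

lemma sum_tri_pow {r : ℕ} (hr : 3 ≤ r) (j : ℕ) (hj : j ≠ 0) :
    ∑ col : Fin r, tri col ^ j = 1 + 2 * (-1 / 2) ^ j := by
  obtain ⟨r, rfl⟩ := Nat.exists_eq_add_of_le' hr
  simp [Fin.sum_univ_succ, tri, hj]
  ring

/-- Signs and frequencies of the four linear phases. -/
def tw : Fin 4 → ℤ := ![1, -1, 1, -1]
def tu : Fin 4 → ℤ := ![1, 2, -1, -2]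

theorem periodic_three (r : ℕ) (hr : 3 ≤ r) :
    ∃ χ : ℕ → Fin r, Bts 3 χ ∧ ∃ m, 0 < m ∧ Function.Periodic χ m := by
  classical
  refine finish 3 r (by omega) (by omega) tri (fun col => by
      unfold tri
      split_ifs <;> norm_num [abs_le]) (by
      have := sum_tri_pow hr 1 one_ne_zero
      simp only [pow_one] at this
      linarith) 1
    (3 / 256) (2 ^ 3 * 48) (by norm_num) (by norm_num) fun p _ hp => ?_
  have hψ := ZMod.isPrimitive_stdAddChar p
  have h2 : (2 : ZMod p) ≠ 0 := two_ne (by omega) hp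
  obtain ⟨f, hf1, hf⟩ := real_phase (ZMod.stdAddChar (N := p)) (fun j => (tw j : ℝ) / 4) tu
    (fun _ => 0) (Equiv.addRight 2) (fun j => by
      have : ∀ j : Fin 4, tw (Equiv.addRight 2 j) = tw j := by decide
      rw [this]) (by decide) (by decide) (by
      simp [Fin.sum_univ_four, tw, abs_div]
      norm_num)
  refine ⟨f, hf1, ?_⟩
  have hw : ∀ j, |(tw j : ℝ) / 4| ≤ 1 := by
    intro j
    have h1 : ∀ j, |tw j| ≤ 1 := by decide
    have h3 : |(tw j : ℝ)| ≤ 1 := by exact_mod_cast h1 j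
    rw [abs_div, abs_of_pos (by norm_num : (0 : ℝ) < 4)]
    linarith
  have hc := fun (n : ℕ) (hn : 3 * n * 3 ^ 2 < p) (e : Fin n → ℕ) (he : ∀ t, e t ≤ 3) =>
    corr_le hψ h2 (fun j => (tw j : ℝ) / 4) tu (fun _ => 0) hw (by decide) (by decide) f hf
      (by omega : 1 ≤ 3) hn e he
  have hP : (0 : ℝ) ≤ p * √p := by positivity
  have hP2 : (0 : ℝ) ≤ (p : ℝ) ^ 2 := by positivity
  have key : ∀ S ∈ (range 3).powerset, (1 : ℝ) ^ S.card * (∑ col : Fin r, tri col ^ S.card)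
      * ∑ d : ZMod p, ∑ a : ZMod p, ∏ i ∈ S, f (a + (i : ℕ) * d)
      ≤ (if S = ∅ then r * (p : ℝ) ^ 2 else 0)
        + (if S = range 3 then -(3 / 256 * (p : ℝ) ^ 2) else 0) + 48 * (p * √p) := by
    intro S hS
    have hord : ∀ {n : ℕ} (h : S.card = n) t, S.orderEmbOfFin h t ≤ 3 := fun h t =>
      (mem_range.1 (mem_powerset.1 hS (S.orderEmbOfFin_mem h t))).le
    by_cases h0 : S = ∅
    · subst h0
      rw [if_pos rfl, if_neg (by decide)]
      simp only [card_empty, pow_zero, sum_const, card_univ, Fintype.card_fin, nsmul_eq_mul,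
        mul_one, one_mul, prod_empty, ZMod.card]
      nlinarith
    rw [if_neg h0, zero_add, sum_tri_pow hr _ (by simpa using h0), one_pow, one_mul]
    by_cases h3 : S = range 3
    · subst h3
      rw [if_pos rfl, card_range]
      simp only [Finset.prod_range]
      have a1 := hc 3 (by omega) (fun t => t.val) (fun t => by omega)
      have hval : ∀ j : Fin 3 → Fin 4, Sol tu (fun _ => 0) (fun t : Fin 3 => t.val) j →
          ∏ t, ((tw (j t) : ℝ) / 4) = -1 / 64 := by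
        rintro j ⟨-, -, -, h4, h5⟩
        simp only [Fin.sum_univ_three] at h4 h5
        have b1 : ∀ j0 j1 j2 : Fin 4, tu j0 + tu j1 + tu j2 = 0 → tu j1 + tu j2 * 2 = 0 →
            tw j0 * tw j1 * tw j2 = -1 := by decide
        have b2 := b1 _ _ _ h4 (by simpa using h5)
        have b3 : (tw (j 0) : ℝ) * tw (j 1) * tw (j 2) = -1 := by exact_mod_cast b2
        rw [Fin.prod_univ_three]
        linear_combination b3 / 64
      have a2 : ∑ j : Fin 3 → Fin 4, (if Sol tu (fun _ => 0) (fun t : Fin 3 => t.val) j then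
          ∏ t, ((tw (j t) : ℝ) / 4) else 0) ≤ -1 / 64 := by
        have b1 : Sol tu (fun _ => 0) (fun t : Fin 3 => t.val) ![0, 3, 0] := by
          unfold Sol
          decide
        have b2 := Finset.single_le_sum (s := univ) (f := fun j : Fin 3 → Fin 4 =>
          -(if Sol tu (fun _ => 0) (fun t : Fin 3 => t.val) j then ∏ t, ((tw (j t) : ℝ) / 4)
            else 0)) (fun j _ => by
            split_ifs with h
            · rw [hval j h]
              norm_num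
            · simp) (mem_univ ![0, 3, 0])
        rw [Finset.sum_neg_distrib, if_pos b1, hval _ b1] at b2
        linarith
      have a3 := mul_le_mul_of_nonneg_left a2 hP2
      simp only [Fintype.card_fin] at a1
      norm_num at a1 a3 ⊢
      linarith
    rw [if_neg h3, zero_add]
    have hS0 : S.card ≠ 0 := by simpa using h0
    have hS3 : S.card < 3 := by
      have := Finset.card_lt_card (Finset.ssubset_iff_subset_ne.2 ⟨mem_powerset.1 hS, h3⟩)
      simpa using this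
    rcases (by omega : S.card = 1 ∨ S.card = 2) with h | h
    · rw [h]
      norm_num
      positivity
    · have a1 := hc 2 (by omega) _ (hord h)
      have a2 : ∀ j : Fin 2 → Fin 4, ¬ Sol tu (fun _ => 0) (S.orderEmbOfFin h) j := by
        rintro j ⟨-, -, -, h4, h5⟩
        simp only [Fin.sum_univ_two] at h4 h5
        have l1 : (S.orderEmbOfFin h 0 : ℤ) < S.orderEmbOfFin h 1 := by
          exact_mod_cast (S.orderEmbOfFin h).strictMono (by decide : (0 : Fin 2) < 1)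
        have q : tu (j 1) * ((S.orderEmbOfFin h 1 : ℤ) - S.orderEmbOfFin h 0) = 0 := by
          linear_combination h5 - (S.orderEmbOfFin h 0 : ℤ) * h4
        have b1 : ∀ j, tu j ≠ 0 := by decide
        rcases mul_eq_zero.1 q with h | h
        · exact b1 _ h
        · omega
      simp only [a2, if_false, sum_const_zero, mul_zero, zero_add, Fintype.card_fin] at a1
      simp only [prod_ord S h, h]
      norm_num at a1 ⊢
      linarith
  refine (Finset.sum_le_sum key).trans (le_of_eq ?_)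
  rw [sum_two_ite 3 _ Subset.rfl]
  ring

end Pool.Agent.MP_6bff71_co.OC
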