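import Pool.Agent.MP_6bff71_co.OC.Count

/-!
From a fractional colouring of `ZMod p` below the random rate to a periodic colouring of `ℕ`.
-/

open Finset

namespace Pool.Agent.MP_6bff71_co.OC

/-- The number of pairs `(a, d)` giving a monochromatic `k`-term progression in `[n]`. -/
def cnt (k n : ℕ) {r : ℕ} (χ : ℕ → Fin r) : ℕ :=
  ((AP k n).filter (fun q => ∀ i ∈ range k, χ (q.1 + i * q.2) = χ q.1)).card

/-- The colouring `χ` of `ℕ` has `δ n ^ 2 + O(n)` monochromatic progressions, with `δ` below the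
random rate. -/
def Bts (k : ℕ) {r : ℕ} (χ : ℕ → Fin r) : Prop :=
  ∃ δ : ℝ, δ < 1 / (2 * ((k : ℝ) - 1) * (r : ℝ) ^ (k - 1)) ∧
    ∃ C : ℝ, ∀ n : ℕ, |(cnt k n χ : ℝ) - δ * (n : ℝ) ^ 2| ≤ C * n

lemma sum_range_zmod (p : ℕ) [NeZero p] (h : ZMod p → ℝ) :
    ∑ x ∈ range p, h ((x + 1 : ℕ) : ZMod p) = ∑ z, h z := by
  refine Finset.sum_bij' (fun x _ => ((x + 1 : ℕ) : ZMod p)) (fun z _ => (z - 1).val)
    ?_ ?_ ?_ ?_ ?_
  · intro x _
    exact mem_univ _
  · intro z _
    exact mem_range.2 (ZMod.val_lt _)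
  · intro x hx
    simp only [Nat.cast_add, Nat.cast_one, add_sub_cancel_right]
    exact ZMod.val_cast_of_lt (mem_range.1 hx)
  · intro z _
    simp
  · intro x _
    rfl

lemma periodic_of_weights (k r p : ℕ) (hk : 2 ≤ k) (hr : 0 < r) [Fact p.Prime] (hkp : k ≤ p)
    (F : ZMod p → Fin r → ℝ) (hF0 : ∀ z col, 0 ≤ F z col) (hF : ∀ z, ∑ col, F z col = 1)
    (h : ∑ d : ZMod p, ∑ a : ZMod p, ∑ col, ∏ i ∈ range k, F (a + (i : ℕ) * d) col + p
      < (p : ℝ) ^ 2 / (r : ℝ) ^ (k - 1)) :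
    ∃ χ : ℕ → Fin r, Bts k χ ∧ Function.Periodic χ p := by
  have hp : p.Prime := Fact.out
  have hp' : (0 : ℝ) < p := by exact_mod_cast hp.pos
  have hr' : (0 : ℝ) < r := by exact_mod_cast hr
  obtain ⟨I, hI⟩ : ∃ I : (ZMod p → Fin r) → ZMod p → ZMod p → ℝ, I = fun c d a =>
    if ∀ i ∈ range k, c (a + (i : ℕ) * d) = c a then 1 else 0 := ⟨_, rfl⟩
  obtain ⟨W, hW⟩ : ∃ W : (ZMod p → Fin r) → ℝ, W = fun c => ∏ y, F y (c y) := ⟨_, rfl⟩
  have hW0 : ∀ c, 0 ≤ W c := fun c => by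
    rw [hW]; exact Finset.prod_nonneg fun y _ => hF0 _ _
  have hW1 : ∑ c, W c = 1 := by rw [hW]; exact sum_weight F hF
  have hI1 : ∀ c d a, |I c d a| ≤ 1 := by
    intro c d a
    rw [hI]
    simp only
    split_ifs <;> simp
  have hone : ∀ d a : ZMod p, ∑ c, W c * I c d a
      ≤ ∑ col, ∏ i ∈ range k, F (a + (i : ℕ) * d) col + (if d = 0 then 1 else 0) := by
    intro d a
    have hS0 : 0 ≤ ∑ col, ∏ i ∈ range k, F (a + (i : ℕ) * d) col :=
      Finset.sum_nonneg fun col _ => Finset.prod_nonneg fun i _ => hF0 _ _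
    by_cases hd : d = 0
    · rw [if_pos hd]
      have : ∑ c, W c * I c d a ≤ ∑ c, W c :=
        Finset.sum_le_sum fun c _ => mul_le_of_le_one_right (hW0 c) (abs_le.1 (hI1 c d a)).2
      linarith
    · rw [if_neg hd, add_zero]
      have hinj : Set.InjOn (fun i : ℕ => a + (i : ZMod p) * d) (range k : Finset ℕ) := by
        intro i hi j hj hij
        have hi' := mem_range.1 hi
        have hj' := mem_range.1 hj
        have h3 := mul_right_cancel₀ hd (add_left_cancel hij)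
        rw [ZMod.natCast_eq_natCast_iff] at h3
        exact Nat.ModEq.eq_of_lt_of_lt h3 (by omega) (by omega)
      have h2 := fun col => marginal F hF (range k) _ hinj col
      simp only [← h2]
      rw [Finset.sum_comm]
      apply Finset.sum_le_sum
      intro c _
      rw [← Finset.mul_sum, hW]
      apply mul_le_mul_of_nonneg_left _ (Finset.prod_nonneg fun y _ => hF0 _ _)
      rw [hI]
      simp only
      split_ifs with h
      · have h3 : (if ∀ i ∈ range k, c (a + (i : ℕ) * d) = c a then (1 : ℝ) else 0) = 1 :=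
          if_pos h
        refine le_trans h3.ge (Finset.single_le_sum (f := fun col =>
          if ∀ i ∈ range k, c (a + (i : ℕ) * d) = col then (1 : ℝ) else 0) ?_ (mem_univ _))
        intro col _
        positivity
      · positivity
  have havg : ∑ c, W c * ∑ d, ∑ a, I c d a < (p : ℝ) ^ 2 / (r : ℝ) ^ (k - 1) := by
    refine lt_of_le_of_lt ?_ h
    have e : ∑ c, W c * ∑ d, ∑ a, I c d a = ∑ d, ∑ a, ∑ c, W c * I c d a := by
      simp only [Finset.mul_sum]
      rw [Finset.sum_comm]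
      exact Finset.sum_congr rfl fun d _ => Finset.sum_comm
    rw [e]
    refine (Finset.sum_le_sum fun d _ => Finset.sum_le_sum fun a _ => hone d a).trans
      (le_of_eq ?_)
    simp only [Finset.sum_add_distrib]
    congr 1
    simp
  obtain ⟨c, hc⟩ : ∃ c, ∑ d, ∑ a, I c d a < (p : ℝ) ^ 2 / (r : ℝ) ^ (k - 1) := by
    by_contra hcon
    push Not at hcon
    have : ∑ c, W c * ((p : ℝ) ^ 2 / (r : ℝ) ^ (k - 1)) ≤ ∑ c, W c * ∑ d, ∑ a, I c d a :=
      Finset.sum_le_sum fun c _ => mul_le_mul_of_nonneg_left (hcon c) (hW0 c)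
    rw [← Finset.sum_mul, hW1, one_mul] at this
    linarith
  refine ⟨fun x => c (x : ZMod p), ⟨(∑ d, ∑ a, I c d a) / (p : ℝ) ^ 2 * (1 / (2 * ((k : ℝ) - 1))),
    ?_, 2 * (p : ℝ) + 2 * p * k + 2 * p + k, fun n => ?_⟩, fun x => by simp⟩
  · have hk' : (2 : ℝ) ≤ k := by exact_mod_cast hk
    have hD : (0 : ℝ) < 2 * ((k : ℝ) - 1) := by linarith
    have h1 : (∑ d, ∑ a, I c d a) / (p : ℝ) ^ 2 < 1 / (r : ℝ) ^ (k - 1) := by
      rw [div_lt_iff₀ (by positivity)]
      refine hc.trans_le (le_of_eq ?_)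
      ring
    calc _ < 1 / (r : ℝ) ^ (k - 1) * (1 / (2 * ((k : ℝ) - 1))) :=
          mul_lt_mul_of_pos_right h1 (by positivity)
      _ = _ := by rw [one_div_mul_one_div, mul_comm]
  · have hu := unroll k p hk hp.pos (fun q => I c (q.2 : ZMod p) (q.1 : ZMod p))
      (fun a d => by simp) (fun a d => by simp) (fun q => hI1 _ _ _) n
    have e1 : ∑ d ∈ range p, ∑ a ∈ range p,
        I c ((d + 1 : ℕ) : ZMod p) ((a + 1 : ℕ) : ZMod p) = ∑ d, ∑ a, I c d a := by
      rw [sum_range_zmod p (fun d => ∑ a ∈ range p, I c d ((a + 1 : ℕ) : ZMod p))]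
      exact Finset.sum_congr rfl fun d _ => sum_range_zmod p (fun a => I c d a)
    have e2 : (cnt k n (fun x : ℕ => c (x : ZMod p)) : ℝ)
        = ∑ q ∈ AP k n, I c (q.2 : ZMod p) (q.1 : ZMod p) := by
      simp only [cnt, Finset.card_filter, hI]
      push_cast
      rfl
    simp only at hu
    rw [e1] at hu
    rw [e2, mul_assoc]
    exact hu

end Pool.Agent.MP_6bff71_co.OC
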