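import Pool.Agent.MP_6bff71_co.OC.Round

/-!
Two colours, three terms: the number of monochromatic progressions through initial sums, and the
consequence that a colouring below the random rate has colour classes without natural density.
-/

open Finset

namespace Pool.Agent.MP_6bff71_co.OC

/-- Initial sums over `1, …, t`. -/
def ps (f : ℕ → ℝ) (t : ℕ) : ℝ := ∑ x ∈ range t, f (x + 1)

/-- The sequence with alternating signs. -/
def alt (f : ℕ → ℝ) (x : ℕ) : ℝ := (-1) ^ x * f x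

lemma ps_succ (f : ℕ → ℝ) (t : ℕ) : ps f (t + 1) = ps f t + f (t + 1) := sum_range_succ _ _

lemma ps_zero (f : ℕ → ℝ) : ps f 0 = 0 := by simp [ps]

lemma sum_up (f : ℕ → ℝ) (a m : ℕ) : ∑ d ∈ range m, f (a + (d + 1)) = ps f (a + m) - ps f a := by
  induction m with
  | zero => simp
  | succ m ih => rw [sum_range_succ, ih, ← add_assoc, ps_succ]; ring

lemma sum_down (f : ℕ → ℝ) (z m : ℕ) (h : m ≤ z) :
    ∑ d ∈ range m, f (z - d) = ps f z - ps f (z - m) := by
  induction m with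
  | zero => simp
  | succ m ih =>
    have e : z - m = z - (m + 1) + 1 := by omega
    rw [sum_range_succ, ih (by omega), e, ps_succ]
    ring

lemma sum_par (f : ℕ → ℝ) (z : ℕ) : ∑ d ∈ range (z / 2), f (z + 1 - 2 * (d + 1))
    = (ps f z + (-1) ^ (z + 1) * ps (alt f) z) / 2 := by
  induction z using Nat.twoStepInduction with
  | zero => simp [ps]
  | one => simp [ps, alt]
  | more z ih _ =>
    have e : (z + 2) / 2 = z / 2 + 1 := by omega
    have e2 : ∀ d, z + 2 + 1 - 2 * (d + 1 + 1) = z + 1 - 2 * (d + 1) := fun d => by omega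
    have e3 : z + 2 + 1 - 2 * (0 + 1) = z + 1 := by omega
    have e4 : ((-1 : ℝ) ^ z) ^ 2 = 1 := by rw [← pow_mul, mul_comm, pow_mul]; norm_num
    rw [e, sum_range_succ', e3]
    simp only [e2, ih, ps_succ, alt, pow_succ]
    linear_combination (f (z + 1 + 1) / 2 - f (z + 1) / 2) * e4

lemma sum_sq (f : ℕ → ℝ) (n : ℕ) : ∑ z ∈ range n, f (z + 1) * ps f z
    = (ps f n ^ 2 - ∑ z ∈ range n, f (z + 1) ^ 2) / 2 := by
  induction n with
  | zero => simp [ps]
  | succ n ih => rw [sum_range_succ, sum_range_succ, ih, ps_succ]; ring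

/-- The part of the pair correlations that sees the two edges of the region. -/
noncomputable def edge (f : ℕ → ℝ) (n : ℕ) : ℝ :=
  ∑ x ∈ range n, f (x + 1) * (ps f ((n + x + 1) / 2) - ps f ((x + 1) / 2))

lemma pair_sum (f : ℕ → ℝ) (n : ℕ) :
    ∑ q ∈ AP 3 n, (f q.1 * f (q.1 + q.2) + f (q.1 + q.2) * f (q.1 + 2 * q.2)
        + f q.1 * f (q.1 + 2 * q.2))
      = edge f n + (ps f n ^ 2 + ps (alt f) n ^ 2) / 4
        - 3 / 2 * ∑ z ∈ range n, f (z + 1) ^ 2 := by
  have hA : ∑ q ∈ AP 3 n, f q.1 * f (q.1 + q.2)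
      = ∑ x ∈ range n, f (x + 1) * (ps f ((n + x + 1) / 2) - ps f (x + 1)) := by
    rw [sum_AP_first]
    apply Finset.sum_congr rfl
    intro a ha
    have := mem_range.1 ha
    have e : a + 1 + (n - (a + 1)) / 2 = (n + a + 1) / 2 := by omega
    simp only
    rw [← Finset.mul_sum, sum_up, e]
  have hB : ∑ q ∈ AP 3 n, f (q.1 + q.2) * f (q.1 + 2 * q.2)
      = ∑ x ∈ range n, f (x + 1) * (ps f x - ps f ((x + 1) / 2)) := by
    rw [sum_AP_last]
    apply Finset.sum_congr rfl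
    intro z _
    have e : z - z / 2 = (z + 1) / 2 := by omega
    rw [← e, ← sum_down f z (z / 2) (by omega), Finset.mul_sum]
    apply Finset.sum_congr rfl
    intro d hd
    have := mem_range.1 hd
    have e1 : z + 1 - 2 * (d + 1) + (d + 1) = z - d := by omega
    have e2 : z + 1 - 2 * (d + 1) + 2 * (d + 1) = z + 1 := by omega
    simp only [e1, e2]
    ring
  have hC : ∑ q ∈ AP 3 n, f q.1 * f (q.1 + 2 * q.2)
      = ∑ x ∈ range n, (f (x + 1) * ps f x + alt f (x + 1) * ps (alt f) x) / 2 := by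
    rw [sum_AP_last]
    apply Finset.sum_congr rfl
    intro z _
    have e : (f (z + 1) * ps f z + alt f (z + 1) * ps (alt f) z) / 2
        = f (z + 1) * ((ps f z + (-1) ^ (z + 1) * ps (alt f) z) / 2) := by
      simp only [alt]
      ring
    rw [e, ← sum_par, Finset.mul_sum]
    apply Finset.sum_congr rfl
    intro d hd
    have := mem_range.1 hd
    have e2 : z + 1 - 2 * (d + 1) + 2 * (d + 1) = z + 1 := by omega
    simp only [e2]
    ring
  have hQ : ∑ z ∈ range n, alt f (z + 1) ^ 2 = ∑ z ∈ range n, f (z + 1) ^ 2 := by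
    apply Finset.sum_congr rfl
    intro z _
    rw [alt, mul_pow, ← pow_mul, mul_comm (z + 1), pow_mul]
    norm_num
  have hAB : ∑ x ∈ range n, f (x + 1) * (ps f ((n + x + 1) / 2) - ps f (x + 1))
      + ∑ x ∈ range n, f (x + 1) * (ps f x - ps f ((x + 1) / 2))
      = edge f n - ∑ z ∈ range n, f (z + 1) ^ 2 := by
    rw [edge, ← Finset.sum_add_distrib, ← Finset.sum_sub_distrib]
    apply Finset.sum_congr rfl
    intro x _
    rw [ps_succ]
    ring
  rw [Finset.sum_add_distrib, Finset.sum_add_distrib, hA, hB, hC, hAB, ← Finset.sum_div,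
    Finset.sum_add_distrib, sum_sq, sum_sq, hQ]
  ring

/-- The sign of a two-colouring: `+1` on the colour `c`, `-1` on the other colour. -/
def sg (χ : ℕ → Fin 2) (c : Fin 2) (x : ℕ) : ℝ := if χ x = c then 1 else -1

lemma cnt_three (χ : ℕ → Fin 2) (c : Fin 2) (n : ℕ) :
    4 * (cnt 3 n χ : ℝ) = (AP 3 n).card + edge (sg χ c) n
      + (ps (sg χ c) n ^ 2 + ps (alt (sg χ c)) n ^ 2) / 4 - 3 / 2 * n := by
  have h := pair_sum (sg χ c) n
  have hQ : ∑ z ∈ range n, sg χ c (z + 1) ^ 2 = n := by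
    have : ∀ z, sg χ c z ^ 2 = 1 := fun z => by unfold sg; split_ifs <;> norm_num
    simp [this]
  rw [hQ] at h
  have e : 4 * (cnt 3 n χ : ℝ) = ∑ q ∈ AP 3 n, (1 + (sg χ c q.1 * sg χ c (q.1 + q.2)
      + sg χ c (q.1 + q.2) * sg χ c (q.1 + 2 * q.2) + sg χ c q.1 * sg χ c (q.1 + 2 * q.2))) := by
    simp only [cnt, Finset.card_filter]
    push_cast
    rw [Finset.mul_sum]
    apply Finset.sum_congr rfl
    intro q _
    have e1 : (∀ i ∈ range 3, χ (q.1 + i * q.2) = χ q.1)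
        ↔ χ (q.1 + q.2) = χ q.1 ∧ χ (q.1 + 2 * q.2) = χ q.1 := by
      simp [range_add_one, and_comm]
    simp only [e1, sg]
    generalize χ q.1 = x
    generalize χ (q.1 + q.2) = y
    generalize χ (q.1 + 2 * q.2) = z
    fin_cases x <;> fin_cases y <;> fin_cases z <;> fin_cases c <;> norm_num
  rw [e, Finset.sum_add_distrib, h]
  simp only [sum_const, nsmul_eq_mul, mul_one]
  ring

lemma abs_sg (χ : ℕ → Fin 2) (c : Fin 2) (x : ℕ) : |sg χ c x| = 1 := by
  unfold sg
  split_ifs <;> simp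

lemma card_three (n : ℕ) : |((AP 3 n).card : ℝ) - 1 / 4 * (n : ℝ) ^ 2| ≤ 3 * (n : ℝ) := by
  have := card_AP_abs 3 n (by norm_num)
  norm_num at this ⊢
  exact this

theorem not_bts_of_linear (χ : ℕ → Fin 2) (c : Fin 2) (α : ℝ)
    (h : ∀ η : ℝ, 0 < η → ∃ B : ℝ, ∀ t : ℕ, |ps (sg χ c) t - α * t| ≤ η * t + B) :
    ¬ Bts 3 χ := by
  rintro ⟨δ, hδ, C, hC⟩
  have hδ' : δ < 1 / 16 := by norm_num at hδ ⊢; exact hδ
  obtain ⟨η, hη⟩ : ∃ η : ℝ, η = (1 / 16 - δ) / (2 + |α|) := ⟨_, rfl⟩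
  have hα : 0 ≤ |α| := abs_nonneg _
  have hη0 : 0 < η := by rw [hη]; apply div_pos <;> linarith
  have hη1 : η * (2 + |α|) = 1 / 16 - δ := by rw [hη]; field_simp
  obtain ⟨B, hB⟩ := h η hη0
  have hB0 : 0 ≤ B := by simpa [ps] using hB 0
  have key : ∀ n : ℕ, -(η * (2 + |α|) * (n : ℝ) ^ 2 + (2 * B + |α| + |α| * B) * n)
      ≤ edge (sg χ c) n := by
    intro n
    have hn : (0 : ℝ) ≤ n := by positivity
    have e : edge (sg χ c) n = α * n / 2 * ps (sg χ c) n + ∑ x ∈ range n, sg χ c (x + 1)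
        * (ps (sg χ c) ((n + x + 1) / 2) - ps (sg χ c) ((x + 1) / 2) - α * n / 2) := by
      rw [edge]
      conv_rhs => rw [ps, Finset.mul_sum, ← Finset.sum_add_distrib]
      apply Finset.sum_congr rfl
      intro x _
      ring
    have b1 : |∑ x ∈ range n, sg χ c (x + 1)
        * (ps (sg χ c) ((n + x + 1) / 2) - ps (sg χ c) ((x + 1) / 2) - α * n / 2)|
        ≤ n * (2 * (η * n + B) + |α|) := by
      refine (Finset.abs_sum_le_sum_abs _ _).trans ?_
      refine (Finset.sum_le_sum (g := fun _ => 2 * (η * n + B) + |α|) fun x hx => ?_).trans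
        (by rw [sum_const, card_range, nsmul_eq_mul])
      have hx' := mem_range.1 hx
      rw [abs_mul, abs_sg, one_mul]
      have a1 := hB ((n + x + 1) / 2)
      have a2 := hB ((x + 1) / 2)
      have a3 : (((n + x + 1) / 2 : ℕ) : ℝ) ≤ n := by exact_mod_cast (by omega)
      have a4 : (((x + 1) / 2 : ℕ) : ℝ) ≤ n := by exact_mod_cast (by omega)
      have a5 : 2 * (((n + x + 1) / 2 : ℕ) : ℝ) ≤ 2 * (((x + 1) / 2 : ℕ) : ℝ) + n + 1 := by
        exact_mod_cast (by omega)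
      have a6 : 2 * (((x + 1) / 2 : ℕ) : ℝ) + n ≤ 2 * (((n + x + 1) / 2 : ℕ) : ℝ) + 1 := by
        exact_mod_cast (by omega)
      have a7 : |α * ((((n + x + 1) / 2 : ℕ) : ℝ) - (((x + 1) / 2 : ℕ) : ℝ) - n / 2)|
          ≤ |α| * 1 := by
        rw [abs_mul]
        exact mul_le_mul_of_nonneg_left (abs_le.2 ⟨by linarith, by linarith⟩) hα
      have a8 := mul_le_mul_of_nonneg_left a3 hη0.le
      have a9 := mul_le_mul_of_nonneg_left a4 hη0.le
      rw [abs_le] at a1 a2 a7 ⊢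
      constructor <;> nlinarith [a1.1, a1.2, a2.1, a2.2, a7.1, a7.2]
    have b2 : |α * n / 2 * (ps (sg χ c) n - α * n)| ≤ |α| * n / 2 * (η * n + B) := by
      rw [abs_mul, abs_div, abs_mul, abs_of_nonneg hn, abs_two]
      exact mul_le_mul_of_nonneg_left (hB n) (by positivity)
    have b3 : 0 ≤ (α * n) ^ 2 := sq_nonneg _
    have b4 : 0 ≤ |α| * η * (n : ℝ) ^ 2 := by positivity
    have b5 : 0 ≤ |α| * B * (n : ℝ) := by positivity
    rw [e]
    nlinarith [(abs_le.1 b1).1, (abs_le.1 b2).1]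
  obtain ⟨n, hn⟩ := exists_nat_gt
    (max ((4 * C + 5 + (2 * B + |α| + |α| * B)) / (1 / 16 - δ)) 0)
  have hn0 : (0 : ℝ) < n := (le_max_right _ _).trans_lt hn
  have hn1 := (le_max_left _ _).trans_lt hn
  rw [div_lt_iff₀ (by linarith)] at hn1
  have c1 := cnt_three χ c n
  have c2 := (abs_le.1 (hC n)).2
  have c3 := (abs_le.1 (card_three n)).1
  have c4 := key n
  rw [hη1] at c4
  have c5 := mul_lt_mul_of_pos_right hn1 hn0
  have c6 : 0 ≤ (1 / 16 - δ) * (n : ℝ) ^ 2 := mul_nonneg (by linarith) (by positivity)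
  nlinarith [sq_nonneg (ps (sg χ c) n), sq_nonneg (ps (alt (sg χ c)) n)]

end Pool.Agent.MP_6bff71_co.OC
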